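import Pool.Agent.T6.H1.Sm.Inst

/-! # Sums of the elements of two sets: the predicted density for the base itself -/

set_option autoImplicit false

namespace Pool.Agent.T6.H1.Sm

open Finset Filter Topology
open Pool.Agent.R459.Eq (co mean Per small_ev pi_lower')
open Pool.Agent.R318.PR (GP mem_GP GP_card_ge qu cnt_pri pri dens_close)
open Pool.Agent.H386R2.Artin (artinC)
open Pool.Agent.H730R2.AA (cnt)
open Pool.Agent.H730R2.AA.Grid (cnt_mono)
open Pool.Agent.TH893.BR (Bs datB datB_A)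

/-- the predicted density for the integers with squarefree part `D` -/
noncomputable def dl (D : ℤ) : ℝ := if D % 4 = 1 then Pool.Agent.H730R2.AA.dens D else artinC

/-- the data: `B` and `r` with a family and its density -/
structure Base (B : ℤ) (r : ℕ) (δ : ℝ) : Prop where
  hr : 1 ≤ r
  hB : B ≠ 0
  fam : ∃ M : ℕ, Fam M (fun p n => fB B r p n) δ
  odd : ¬ 2 ∣ r → δ = artinC
  even : 2 ∣ r → ∀ n D s : ℤ, Squarefree D → s ≠ 0 → B * n ^ r = D * s ^ 2 → δ = dl D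

/-- the squarefree part is unique -/
lemma sqf_unique (D E k s : ℤ) (hD : Squarefree D) (hE : Squarefree E) (hk : k ≠ 0) (hs : s ≠ 0)
    (h : D * k ^ 2 = E * s ^ 2) : D = E := by
  have hD0 := hD.ne_zero
  have hE0 := hE.ne_zero
  -- the absolute values
  have h1 : D.natAbs * k.natAbs ^ 2 = E.natAbs * s.natAbs ^ 2 := by
    have := congrArg Int.natAbs h
    rwa [Int.natAbs_mul, Int.natAbs_mul, Int.natAbs_pow, Int.natAbs_pow] at this
  have hDn := Int.squarefree_natAbs.2 hD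
  have hEn := Int.squarefree_natAbs.2 hE
  have hk0 : k.natAbs ≠ 0 := Int.natAbs_ne_zero.2 hk
  have hs0 : s.natAbs ≠ 0 := Int.natAbs_ne_zero.2 hs
  have h2 : D.natAbs = E.natAbs := by
    apply Nat.eq_of_factorization_eq hDn.ne_zero hEn.ne_zero
    intro q
    have h3 := congrArg (fun n => n.factorization q) h1
    rw [Nat.factorization_mul hDn.ne_zero (pow_ne_zero _ hk0), Nat.factorization_mul hEn.ne_zero (pow_ne_zero _ hs0),
      Nat.factorization_pow, Nat.factorization_pow] at h3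
    simp only [Finsupp.coe_add, Finsupp.coe_smul, Pi.add_apply, Pi.smul_apply, smul_eq_mul] at h3
    have h4 := hDn.natFactorization_le_one q
    have h5 := hEn.natFactorization_le_one q
    omega
  rcases Int.natAbs_eq_natAbs_iff.1 h2 with h3 | h3
  · exact h3
  · exfalso
    rw [h3] at h
    have hk2 : 0 < k ^ 2 := by positivity
    have hs2 : 0 < s ^ 2 := by positivity
    have h4 : E * (k ^ 2 + s ^ 2) = 0 := by linarith
    rcases mul_eq_zero.1 h4 with h5 | h5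
    · exact hE0 h5
    · linarith

/-- the bases of Q1 -/
lemma base_B (s : Bs) (r : ℕ) (hr : 1 ≤ r) : Base s.B r (s.e r.primeFactors * artinC) := by
  refine ⟨hr, s.B0, ⟨_, fam_B s ⟨r, hr⟩⟩, ?_, ?_⟩
  · intro h
    unfold Bs.e
    rw [if_neg, one_mul]
    intro h2
    exact h (Nat.mem_primeFactors.1 h2).2.1
  · intro h n D z hD hz hn
    obtain ⟨t, ht⟩ := h
    have h2 : 2 ∈ r.primeFactors := Nat.mem_primeFactors.2 ⟨Nat.prime_two, ⟨t, ht⟩, by omega⟩
    have hn0 : s.k * n ^ t ≠ 0 := by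
      intro h0
      have h3 : s.B * n ^ r = 0 := by
        rw [s.hB, ht]
        have : s.D * s.k ^ 2 * n ^ (2 * t) = s.D * (s.k * n ^ t) ^ 2 := by ring
        rw [this, h0]
        ring
      rw [h3] at hn
      have : D * z ^ 2 ≠ 0 := mul_ne_zero hD.ne_zero (pow_ne_zero _ hz)
      exact this hn.symm
    have h3 : s.D * (s.k * n ^ t) ^ 2 = D * z ^ 2 := by
      rw [← hn, s.hB, ht]
      ring
    have h4 := sqf_unique s.D D _ z s.hD hD hn0 hz h3
    rw [← h4]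
    unfold dl Bs.e
    rw [if_pos h2, if_pos s.h4]
    rfl

/-- linear bases -/
lemma base_lin (B : ℤ) (hB : B ≠ 0) : Base B 1 artinC :=
  ⟨le_rfl, hB, ⟨_, fam_lin B hB⟩, fun _ => rfl, fun h => absurd h (by norm_num)⟩

/-- the number of the primes modulo which `D v` is a square -/
noncomputable def NQ (M : ℕ) (D : ℤ) (v : ℤ) (x : ℕ) : ℕ := by
  classical
  exact ((GP M x).filter (fun p : ℕ => IsSquare ((D * v : ℤ) : ZMod p))).card

lemma NQ_mono (M : ℕ) (D v : ℤ) : Monotone (NQ M D v) := by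
  classical
  intro x y hxy
  unfold NQ
  apply card_le_card
  intro p hp
  rw [mem_filter, mem_GP] at hp ⊢
  exact ⟨⟨hp.1.1.trans hxy, hp.1.2⟩, hp.2⟩

lemma NQ_eq (M : ℕ) (D v : ℤ) (x : ℕ) : (NQ M D v x : ℝ) = ∑ p ∈ GP M x, qu D p v := by
  classical
  unfold NQ qu
  rw [card_filter]
  push_cast
  apply sum_congr rfl
  intro p _
  congr

lemma NQ_sq (M : ℕ) (D v z : ℤ) (h : D * v = z ^ 2) (x : ℕ) : NQ M D v x = (GP M x).card := by
  classical
  unfold NQ
  congr 1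
  rw [filter_eq_self]
  intro p _
  rw [h]
  push_cast
  exact ⟨(z : ZMod p), by ring⟩

open Classical in
/-- **the theorem for sums** -/
theorem final (B : ℤ) (r : ℕ) (δ : ℝ) (hBr : Base B r δ) (η : ℝ) (hη : 0 < η) (hη1 : η ≤ 1)
    (ε : ℝ) (hε : 0 < ε) : ∃ (C : ℝ) (X₀ : ℕ), 0 < C ∧ ∀ (Y N₀ : ℕ) (U V : Finset ℤ), X₀ ≤ Y → 1 ≤ N₀ →
      (∀ u ∈ U, |u| ≤ N₀) → (∀ v ∈ V, |v| ≤ N₀) → Real.log (2 * N₀) ^ (2 + η) ≤ Y →
      (((U ×ˢ V).filter (fun z => ∃ x : ℕ, Y ≤ x ∧ Cd η (Real.log (2 * N₀)) U.card V.card x ∧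
        ∃ D s : ℤ, Squarefree D ∧ s ≠ 0 ∧ B * (z.1 + z.2) ^ r = D * s ^ 2 ∧
        ε * (Nat.primeCounting x : ℝ) < |(cnt (B * (z.1 + z.2) ^ r) x : ℝ) - dl D * Nat.primeCounting x|)).card : ℝ) ≤
        C * (Y : ℝ) ^ (-(η / 16)) * (U.card * V.card) := by
  obtain ⟨M, hF⟩ := hBr.fam
  have hKc : ∀ v x, |((cnt (B * v ^ r) x : ℕ) : ℝ) - ∑ p ∈ GP M x, fB B r p v| ≤ (M.primeFactors.card : ℝ) := by
    intro v x
    have h1 := cnt_pri M hF.hM (B * v ^ r) x
    exact h1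
  by_cases h2r : 2 ∣ r
  · -- even exponents
    obtain ⟨C, X₀, hC, _, h⟩ := all_sum M _ δ hF (fun v x => cnt (B * v ^ r) x) (fun v => fun x y hxy => cnt_mono _ hxy)
      _ hKc η hη hη1 ε hε
    refine ⟨C, X₀, hC, fun Y N₀ U V hY hN₀ hU hV hLY => ?_⟩
    refine le_trans ?_ (h Y N₀ U V hY hN₀ hU hV hLY)
    have hsub : (U ×ˢ V).filter (fun z => ∃ x : ℕ, Y ≤ x ∧ Cd η (Real.log (2 * N₀)) U.card V.card x ∧
        ∃ D s : ℤ, Squarefree D ∧ s ≠ 0 ∧ B * (z.1 + z.2) ^ r = D * s ^ 2 ∧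
        ε * (Nat.primeCounting x : ℝ) < |(cnt (B * (z.1 + z.2) ^ r) x : ℝ) - dl D * Nat.primeCounting x|) ⊆
        (U ×ˢ V).filter (fun z => ∃ x : ℕ, Y ≤ x ∧ Cd η (Real.log (2 * N₀)) U.card V.card x ∧
        ε * (Nat.primeCounting x : ℝ) < |(cnt (B * (z.1 + z.2) ^ r) x : ℝ) - δ * Nat.primeCounting x|) := by
      intro z hz
      rw [mem_filter] at hz ⊢
      obtain ⟨hz1, x, hx1, hx2, D, s, hD, hs, hDs, hx3⟩ := hz
      refine ⟨hz1, x, hx1, hx2, ?_⟩
      rw [hBr.even h2r _ D s hD hs hDs]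
      exact hx3
    exact_mod_cast card_le_card hsub
  · -- odd exponents
    have hδ := hBr.odd h2r
    rw [hδ] at hF
    obtain ⟨C, X₀, hC, _, h⟩ := all_sum M _ artinC hF (fun v x => cnt (B * v ^ r) x)
      (fun v => fun x y hxy => cnt_mono _ hxy) _ hKc η hη hη1 (ε / 2) (by positivity)
    obtain ⟨K, hK⟩ := exists_nat_ge (2 / ε : ℝ)
    have h2 : ∀ D : ℤ, ∃ (C : ℝ) (X₀ : ℕ), 0 < C ∧ (D ≠ 0 → ∀ (Y N₀ : ℕ) (U V : Finset ℤ), X₀ ≤ Y → 1 ≤ N₀ →
      (∀ u ∈ U, |u| ≤ N₀) → (∀ v ∈ V, |v| ≤ N₀) → Real.log (2 * N₀) ^ (2 + η) ≤ Y →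
      (((U ×ˢ V).filter (fun z => ∃ x : ℕ, Y ≤ x ∧ Cd η (Real.log (2 * N₀)) U.card V.card x ∧
        ∃ w : ℤ, D * (z.1 + z.2) = w ^ 2)).card : ℝ) ≤
        C * (Y : ℝ) ^ (-(η / 16)) * (U.card * V.card)) := by
      intro D
      by_cases hD : D = 0
      · exact ⟨1, 1, one_pos, fun h => absurd hD h⟩
      · obtain ⟨C, X₀, hC, _, h⟩ := all_sum _ _ (1 / 2) (fam_qu D hD) (fun v x => NQ (D.natAbs + 1).factorial D v x)
          (fun v => NQ_mono _ D v) 0 (fun v x => by rw [NQ_eq, sub_self, abs_zero]) η hη hη1 (1 / 4) (by norm_num)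
        obtain ⟨X1, hX14, hX1⟩ := small_ev ((D.natAbs + 1).factorial.primeFactors.card : ℝ) (1 / 8) (by norm_num)
        refine ⟨C, max X₀ X1, hC, fun _ Y N₀ U V hY hN₀ hU hV hLY => ?_⟩
        refine le_trans ?_ (h Y N₀ U V ((le_max_left _ _).trans hY) hN₀ hU hV hLY)
        have hsub : (U ×ˢ V).filter (fun z => ∃ x : ℕ, Y ≤ x ∧ Cd η (Real.log (2 * N₀)) U.card V.card x ∧
            ∃ w : ℤ, D * (z.1 + z.2) = w ^ 2) ⊆
            (U ×ˢ V).filter (fun z => ∃ x : ℕ, Y ≤ x ∧ Cd η (Real.log (2 * N₀)) U.card V.card x ∧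
            1 / 4 * (Nat.primeCounting x : ℝ) <
              |(NQ (D.natAbs + 1).factorial D (z.1 + z.2) x : ℝ) - 1 / 2 * Nat.primeCounting x|) := by
          intro z hz
          rw [mem_filter] at hz ⊢
          obtain ⟨hz1, x, hx1, hx2, w, hw⟩ := hz
          refine ⟨hz1, x, hx1, hx2, ?_⟩
          have hxX1 : X1 ≤ x := ((le_max_right _ _).trans hY).trans hx1
          have hx4 : 4 ≤ x := hX14.trans hxX1
          have hpos := (pi_lower' x hx4).1
          have h3 := hX1 x hxX1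
          have h8 : 0 ≤ Real.log x := Real.log_nonneg (by exact_mod_cast (by omega : 1 ≤ x))
          have h4 := GP_card_ge (D.natAbs + 1).factorial (Nat.factorial_ne_zero _) x
          rw [NQ_sq _ _ _ w hw]
          refine lt_of_lt_of_le ?_ (le_abs_self _)
          linarith
        exact_mod_cast card_le_card hsub
    choose C₂ X₂ hC₂ J₂ using h2
    obtain ⟨R, hR⟩ : ∃ R : Finset ℤ, R = (Icc (-(K : ℤ)) K).filter (fun D => D ≠ 0) := ⟨_, rfl⟩
    refine ⟨C + ∑ D ∈ R, C₂ (D * B), X₀ + ∑ D ∈ R, X₂ (D * B), ?_, ?_⟩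
    · have : 0 ≤ ∑ D ∈ R, C₂ (D * B) := sum_nonneg fun D _ => (hC₂ _).le
      linarith
    intro Y N₀ U V hY hN₀ hU hV hLY
    obtain ⟨EE, hEE⟩ : ∃ EE : ℤ → Finset (ℤ × ℤ), EE = fun D => (U ×ˢ V).filter (fun z => ∃ x : ℕ, Y ≤ x ∧
        Cd η (Real.log (2 * N₀)) U.card V.card x ∧ ∃ w : ℤ, (D * B) * (z.1 + z.2) = w ^ 2) := ⟨_, rfl⟩
    obtain ⟨E₁, hE₁⟩ : ∃ E₁, E₁ = (U ×ˢ V).filter (fun z => ∃ x : ℕ, Y ≤ x ∧ Cd η (Real.log (2 * N₀)) U.card V.card x ∧
        ε / 2 * (Nat.primeCounting x : ℝ) < |(cnt (B * (z.1 + z.2) ^ r) x : ℝ) - artinC * Nat.primeCounting x|) :=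
      ⟨_, rfl⟩
    have hcover : (U ×ˢ V).filter (fun z => ∃ x : ℕ, Y ≤ x ∧ Cd η (Real.log (2 * N₀)) U.card V.card x ∧
        ∃ D s : ℤ, Squarefree D ∧ s ≠ 0 ∧ B * (z.1 + z.2) ^ r = D * s ^ 2 ∧
        ε * (Nat.primeCounting x : ℝ) < |(cnt (B * (z.1 + z.2) ^ r) x : ℝ) - dl D * Nat.primeCounting x|) ⊆
        E₁ ∪ R.biUnion EE := by
      intro z hz
      rw [mem_filter] at hz
      obtain ⟨hz1, x, hx1, hx2, D, s, hD, hs, hDs, hx3⟩ := hz
      rw [mem_union]
      by_cases hsm : D.natAbs ≤ K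
      · right
        rw [mem_biUnion]
        refine ⟨D, ?_, ?_⟩
        · rw [hR, mem_filter, mem_Icc]
          exact ⟨by omega, hD.ne_zero⟩
        · rw [hEE, mem_filter]
          refine ⟨hz1, x, hx1, hx2, ?_⟩
          -- `D B n` is a square
          obtain ⟨t, ht⟩ : ∃ t, r = 2 * t + 1 := ⟨r / 2, by omega⟩
          have hn0 : z.1 + z.2 ≠ 0 := by
            intro h0
            rw [h0, zero_pow (by omega), mul_zero] at hDs
            exact mul_ne_zero hD.ne_zero (pow_ne_zero _ hs) hDs.symm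
          have h3 : (D * B) * (z.1 + z.2) * ((z.1 + z.2) ^ t) ^ 2 = (D * s) ^ 2 := by
            have h4 : B * (z.1 + z.2) ^ r = B * (z.1 + z.2) * ((z.1 + z.2) ^ t) ^ 2 := by
              rw [ht]; ring
            calc (D * B) * (z.1 + z.2) * ((z.1 + z.2) ^ t) ^ 2 = D * (B * (z.1 + z.2) ^ r) := by rw [h4]; ring
              _ = D * (D * s ^ 2) := by rw [hDs]
              _ = _ := by ring
          have h4 : ((z.1 + z.2) ^ t) ^ 2 ∣ (D * s) ^ 2 := ⟨(D * B) * (z.1 + z.2), by rw [← h3]; ring⟩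
          have h5 : (z.1 + z.2) ^ t ∣ D * s := (Int.pow_dvd_pow_iff two_ne_zero).1 h4
          obtain ⟨w, hw⟩ := h5
          refine ⟨w, ?_⟩
          have h6 : ((z.1 + z.2) ^ t) ^ 2 ≠ 0 := pow_ne_zero _ (pow_ne_zero _ hn0)
          have h7 : ((D * B) * (z.1 + z.2) - w ^ 2) * ((z.1 + z.2) ^ t) ^ 2 = 0 := by
            rw [sub_mul, h3, hw]; ring
          rcases mul_eq_zero.1 h7 with h8 | h8
          · linarith
          · exact absurd h8 h6
      · left
        rw [hE₁, mem_filter]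
        refine ⟨hz1, x, hx1, hx2, ?_⟩
        have hclose : |dl D - artinC| ≤ ε / 2 := by
          unfold dl
          split_ifs with h4
          · refine (dens_close D hD h4).trans ?_
            have h5 : (2 / ε : ℝ) ≤ (D.natAbs : ℝ) := by
              refine hK.trans ?_
              exact_mod_cast (by omega : K ≤ D.natAbs)
            have h6 : (0 : ℝ) < 2 / ε := by positivity
            calc 1 / (D.natAbs : ℝ) ≤ 1 / (2 / ε) := one_div_le_one_div_of_le h6 h5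
              _ = ε / 2 := by field_simp
          · rw [sub_self, abs_zero]
            positivity
        have h7 := abs_sub_le (cnt (B * (z.1 + z.2) ^ r) x : ℝ) (artinC * (Nat.primeCounting x : ℝ))
          (dl D * (Nat.primeCounting x : ℝ))
        have h8 : |artinC * (Nat.primeCounting x : ℝ) - dl D * (Nat.primeCounting x : ℝ)| ≤
            ε / 2 * (Nat.primeCounting x : ℝ) := by
          rw [abs_sub_comm, ← sub_mul, abs_mul, Nat.abs_cast]
          exact mul_le_mul_of_nonneg_right hclose (Nat.cast_nonneg _)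
        linarith
    have hYX₀ : X₀ ≤ Y := by omega
    have h4 : (E₁.card : ℝ) ≤ C * (Y : ℝ) ^ (-(η / 16)) * (U.card * V.card) := by
      rw [hE₁]
      exact h Y N₀ U V hYX₀ hN₀ hU hV hLY
    have h5 : ∀ D ∈ R, ((EE D).card : ℝ) ≤ C₂ (D * B) * ((Y : ℝ) ^ (-(η / 16)) * (U.card * V.card)) := by
      intro D hD
      have hD0 : D * B ≠ 0 := by
        rw [hR, mem_filter] at hD
        exact mul_ne_zero hD.2 hBr.hB
      have hXD : X₂ (D * B) ≤ Y := by
        have := single_le_sum (f := fun D => X₂ (D * B)) (fun _ _ => Nat.zero_le _) hD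
        omega
      have h6 := J₂ (D * B) hD0 Y N₀ U V hXD hN₀ hU hV hLY
      rw [hEE]
      refine h6.trans (le_of_eq ?_)
      ring
    have h6 : (((U ×ˢ V).filter (fun z => ∃ x : ℕ, Y ≤ x ∧ Cd η (Real.log (2 * N₀)) U.card V.card x ∧
        ∃ D s : ℤ, Squarefree D ∧ s ≠ 0 ∧ B * (z.1 + z.2) ^ r = D * s ^ 2 ∧
        ε * (Nat.primeCounting x : ℝ) < |(cnt (B * (z.1 + z.2) ^ r) x : ℝ) - dl D * Nat.primeCounting x|)).card : ℝ) ≤
        E₁.card + ∑ D ∈ R, ((EE D).card : ℝ) := by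
      have h7 := (card_le_card hcover).trans ((card_union_le _ _).trans (add_le_add_right card_biUnion_le _))
      exact_mod_cast h7
    have h7 := sum_le_sum h5
    rw [← sum_mul] at h7
    have e : (C + ∑ D ∈ R, C₂ (D * B)) * (Y : ℝ) ^ (-(η / 16)) * (U.card * V.card) =
        C * (Y : ℝ) ^ (-(η / 16)) * (U.card * V.card) +
        (∑ D ∈ R, C₂ (D * B)) * ((Y : ℝ) ^ (-(η / 16)) * (U.card * V.card)) := by ring
    rw [e]
    linarith

end Pool.Agent.T6.H1.Sm
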