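import Pool.Agent.R459.Eq2

/-! # The second moment over the sums of the elements of two arbitrary finite sets of integers -/

set_option autoImplicit false

namespace Pool.Agent.T6.H1.Sm

open Finset
open Pool.Agent.H807R2.Dav
open Pool.Agent.R459.Eq (co mean Per centered ee_sum_range mean_mem)

/-- the pairs of elements of `U` which are congruent modulo `p` and modulo `q` -/
def coll (U : Finset ℤ) (p q : ℕ) : ℕ :=
  ((U ×ˢ U).filter (fun z => (p : ℤ) ∣ z.1 - z.2 ∧ (q : ℤ) ∣ z.1 - z.2)).card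

/-- the exponential sum over `U` -/
noncomputable def SU (U : Finset ℤ) (p q a b : ℕ) : ℂ :=
  ∑ u ∈ U, ee ((a : ℝ) * ((u : ℝ) / p)) * ee ((b : ℝ) * ((u : ℝ) / q))

lemma conj_ee (x : ℝ) : (starRingEnd ℂ) (ee x) = ee (-x) := by
  unfold ee
  rw [← Complex.exp_conj]
  congr 1
  simp only [map_mul, Complex.conj_ofReal, Complex.conj_I, map_ofNat]
  push_cast
  ring

lemma parsev (U : Finset ℤ) (p q : ℕ) (hp : 1 ≤ p) (hq : 1 ≤ q) :
    ∑ a ∈ range p, ∑ b ∈ range q, ‖SU U p q a b‖ ^ 2 = (p * q : ℝ) * coll U p q := by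
  have h1 : ∀ a b : ℕ, ((‖SU U p q a b‖ ^ 2 : ℝ) : ℂ) =
      ∑ z ∈ U ×ˢ U, ee ((a : ℝ) * (((z.1 - z.2 : ℤ) : ℝ) / p)) * ee ((b : ℝ) * (((z.1 - z.2 : ℤ) : ℝ) / q)) := by
    intro a b
    rw [← Complex.normSq_eq_norm_sq, Complex.normSq_eq_conj_mul_self, mul_comm]
    unfold SU
    rw [map_sum, sum_mul_sum, ← sum_product']
    apply sum_congr rfl
    intro z _
    rw [map_mul, conj_ee, conj_ee]
    have e1 : ee ((a : ℝ) * (((z.1 - z.2 : ℤ) : ℝ) / p)) =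
        ee ((a : ℝ) * ((z.1 : ℝ) / p)) * ee (-((a : ℝ) * ((z.2 : ℝ) / p))) := by
      rw [← ee_add]
      congr 1
      push_cast
      ring
    have e2 : ee ((b : ℝ) * (((z.1 - z.2 : ℤ) : ℝ) / q)) =
        ee ((b : ℝ) * ((z.1 : ℝ) / q)) * ee (-((b : ℝ) * ((z.2 : ℝ) / q))) := by
      rw [← ee_add]
      congr 1
      push_cast
      ring
    rw [e1, e2]
    ring
  have h2 : ((∑ a ∈ range p, ∑ b ∈ range q, ‖SU U p q a b‖ ^ 2 : ℝ) : ℂ) =
      ∑ z ∈ U ×ˢ U, (if (p : ℤ) ∣ z.1 - z.2 then (p : ℂ) else 0) *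
        (if (q : ℤ) ∣ z.1 - z.2 then (q : ℂ) else 0) := by
    rw [Complex.ofReal_sum]
    have e0 : ∀ a ∈ range p, ((∑ b ∈ range q, ‖SU U p q a b‖ ^ 2 : ℝ) : ℂ) =
        ∑ b ∈ range q, ∑ z ∈ U ×ˢ U, ee ((a : ℝ) * (((z.1 - z.2 : ℤ) : ℝ) / p)) *
          ee ((b : ℝ) * (((z.1 - z.2 : ℤ) : ℝ) / q)) := by
      intro a _
      rw [Complex.ofReal_sum]
      exact sum_congr rfl fun b _ => h1 a b
    rw [sum_congr rfl e0]
    have e1 : ∑ a ∈ range p, ∑ b ∈ range q, ∑ z ∈ U ×ˢ U, ee ((a : ℝ) * (((z.1 - z.2 : ℤ) : ℝ) / p)) *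
          ee ((b : ℝ) * (((z.1 - z.2 : ℤ) : ℝ) / q)) =
        ∑ z ∈ U ×ˢ U, ∑ a ∈ range p, ∑ b ∈ range q, ee ((a : ℝ) * (((z.1 - z.2 : ℤ) : ℝ) / p)) *
          ee ((b : ℝ) * (((z.1 - z.2 : ℤ) : ℝ) / q)) := by
      rw [sum_comm]
      rw [sum_congr rfl (fun b _ => sum_comm)]
      rw [sum_comm]
      apply sum_congr rfl
      intro z _
      rw [sum_comm]
    rw [e1]
    apply sum_congr rfl
    intro z _
    rw [← sum_mul_sum, ee_sum_range p hp, ee_sum_range q hq]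
  have h3 : ∑ z ∈ U ×ˢ U, (if (p : ℤ) ∣ z.1 - z.2 then (p : ℂ) else 0) *
        (if (q : ℤ) ∣ z.1 - z.2 then (q : ℂ) else 0) = ((p * q : ℝ) * coll U p q : ℝ) := by
    have e0 : ∀ z ∈ U ×ˢ U, (if (p : ℤ) ∣ z.1 - z.2 then (p : ℂ) else 0) *
        (if (q : ℤ) ∣ z.1 - z.2 then (q : ℂ) else 0) =
        (if (p : ℤ) ∣ z.1 - z.2 ∧ (q : ℤ) ∣ z.1 - z.2 then (p * q : ℂ) else 0) := by
      intro z _
      by_cases h1 : (p : ℤ) ∣ z.1 - z.2 <;> by_cases h2 : (q : ℤ) ∣ z.1 - z.2 <;> simp [h1, h2]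
    rw [sum_congr rfl e0, ← sum_filter, sum_const, nsmul_eq_mul]
    unfold coll
    push_cast
    ring
  rw [h3] at h2
  exact_mod_cast h2

/-- the covariance of two functions modulo different primes -/
lemma cov2 (U V : Finset ℤ) (p q : ℕ) (hp : 1 ≤ p) (hq : 1 ≤ q) (f g : ℤ → ℝ) (hf : Per p f) (hg : Per q g)
    (α β : ℝ) (hα0 : 0 ≤ α) (hβ0 : 0 ≤ β) (hα : ∀ a ∈ Ico 1 p, ‖co p f a‖ ≤ α) (hβ : ∀ b ∈ Ico 1 q, ‖co q g b‖ ≤ β) :
    |∑ u ∈ U, ∑ v ∈ V, (f (u + v) - mean p f) * (g (u + v) - mean q g)| ≤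
      α * β * (p * q) * Real.sqrt (coll U p q * coll V p q) := by
  have hp0 : (0 : ℝ) < p := by exact_mod_cast hp
  have hq0 : (0 : ℝ) < q := by exact_mod_cast hq
  have h1 : ((∑ u ∈ U, ∑ v ∈ V, (f (u + v) - mean p f) * (g (u + v) - mean q g) : ℝ) : ℂ) =
      ∑ a ∈ Ico 1 p, ∑ b ∈ Ico 1 q, co p f a * co q g b * (SU U p q a b * SU V p q a b) := by
    rw [Complex.ofReal_sum]
    have e0 : ∀ u ∈ U, ((∑ v ∈ V, (f (u + v) - mean p f) * (g (u + v) - mean q g) : ℝ) : ℂ) =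
        ∑ v ∈ V, ∑ a ∈ Ico 1 p, ∑ b ∈ Ico 1 q, co p f a * co q g b *
          ((ee ((a : ℝ) * ((u : ℝ) / p)) * ee ((b : ℝ) * ((u : ℝ) / q))) *
            (ee ((a : ℝ) * ((v : ℝ) / p)) * ee ((b : ℝ) * ((v : ℝ) / q)))) := by
      intro u _
      rw [Complex.ofReal_sum]
      apply sum_congr rfl
      intro v _
      rw [Complex.ofReal_mul, centered p hp f hf, centered q hq g hg, sum_mul_sum]
      apply sum_congr rfl
      intro a _
      apply sum_congr rfl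
      intro b _
      have e1 : ee ((a : ℝ) * (((u + v : ℤ) : ℝ) / p)) = ee ((a : ℝ) * ((u : ℝ) / p)) * ee ((a : ℝ) * ((v : ℝ) / p)) := by
        rw [← ee_add]
        congr 1
        push_cast
        ring
      have e2 : ee ((b : ℝ) * (((u + v : ℤ) : ℝ) / q)) = ee ((b : ℝ) * ((u : ℝ) / q)) * ee ((b : ℝ) * ((v : ℝ) / q)) := by
        rw [← ee_add]
        congr 1
        push_cast
        ring
      rw [e1, e2]
      ring
    rw [sum_congr rfl e0]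
    have e3 : ∀ a ∈ Ico 1 p, ∀ b ∈ Ico 1 q, co p f a * co q g b * (SU U p q a b * SU V p q a b) =
        ∑ u ∈ U, ∑ v ∈ V, co p f a * co q g b *
          ((ee ((a : ℝ) * ((u : ℝ) / p)) * ee ((b : ℝ) * ((u : ℝ) / q))) *
            (ee ((a : ℝ) * ((v : ℝ) / p)) * ee ((b : ℝ) * ((v : ℝ) / q)))) := by
      intro a _ b _
      unfold SU
      rw [sum_mul_sum, mul_sum]
      apply sum_congr rfl
      intro u _
      rw [mul_sum]
    rw [sum_congr rfl (fun a ha => sum_congr rfl (fun b hb => e3 a ha b hb))]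
    have e4 : ∀ u ∈ U, ∑ v ∈ V, ∑ a ∈ Ico 1 p, ∑ b ∈ Ico 1 q, co p f a * co q g b *
          ((ee ((a : ℝ) * ((u : ℝ) / p)) * ee ((b : ℝ) * ((u : ℝ) / q))) *
            (ee ((a : ℝ) * ((v : ℝ) / p)) * ee ((b : ℝ) * ((v : ℝ) / q)))) =
        ∑ a ∈ Ico 1 p, ∑ b ∈ Ico 1 q, ∑ v ∈ V, co p f a * co q g b *
          ((ee ((a : ℝ) * ((u : ℝ) / p)) * ee ((b : ℝ) * ((u : ℝ) / q))) *
            (ee ((a : ℝ) * ((v : ℝ) / p)) * ee ((b : ℝ) * ((v : ℝ) / q)))) := by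
      intro u _
      rw [sum_comm]
      apply sum_congr rfl
      intro a _
      rw [sum_comm]
    rw [sum_congr rfl e4, sum_comm]
    apply sum_congr rfl
    intro a _
    rw [sum_comm]
  rw [← Real.norm_eq_abs, ← Complex.norm_real, h1]
  have hsub : ∀ (W : Finset ℤ), ∑ a ∈ Ico 1 p, ∑ b ∈ Ico 1 q, ‖SU W p q a b‖ ^ 2 ≤ (p * q : ℝ) * coll W p q := by
    intro W
    rw [← parsev W p q hp hq]
    have hs : ∀ n : ℕ, Ico 1 n ⊆ range n := fun n => by rw [range_eq_Ico]; exact Ico_subset_Ico_left (by omega)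
    calc ∑ a ∈ Ico 1 p, ∑ b ∈ Ico 1 q, ‖SU W p q a b‖ ^ 2 ≤ ∑ a ∈ Ico 1 p, ∑ b ∈ range q, ‖SU W p q a b‖ ^ 2 :=
          sum_le_sum fun a _ => sum_le_sum_of_subset_of_nonneg (hs q) fun _ _ _ => by positivity
      _ ≤ _ := sum_le_sum_of_subset_of_nonneg (hs p) fun _ _ _ => sum_nonneg fun _ _ => by positivity
  have hcs : ∑ a ∈ Ico 1 p, ∑ b ∈ Ico 1 q, ‖SU U p q a b‖ * ‖SU V p q a b‖ ≤
      (p * q) * Real.sqrt (coll U p q * coll V p q) := by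
    rw [← sum_product' (Ico 1 p) (Ico 1 q) (fun a b => ‖SU U p q a b‖ * ‖SU V p q a b‖)]
    have h2 := Real.sum_mul_le_sqrt_mul_sqrt (Ico 1 p ×ˢ Ico 1 q) (fun z => ‖SU U p q z.1 z.2‖) (fun z => ‖SU V p q z.1 z.2‖)
    refine h2.trans ?_
    rw [sum_product' (Ico 1 p) (Ico 1 q) (fun a b => ‖SU U p q a b‖ ^ 2),
      sum_product' (Ico 1 p) (Ico 1 q) (fun a b => ‖SU V p q a b‖ ^ 2)]
    calc _ ≤ Real.sqrt ((p * q : ℝ) * coll U p q) * Real.sqrt ((p * q : ℝ) * coll V p q) :=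
          mul_le_mul (Real.sqrt_le_sqrt (hsub U)) (Real.sqrt_le_sqrt (hsub V)) (Real.sqrt_nonneg _) (Real.sqrt_nonneg _)
      _ = _ := by
          rw [← Real.sqrt_mul (by positivity)]
          have e : (p * q : ℝ) * coll U p q * ((p * q : ℝ) * coll V p q) = ((p : ℝ) * q) ^ 2 * (coll U p q * coll V p q) := by ring
          rw [e, Real.sqrt_mul (by positivity), Real.sqrt_sq (by positivity)]
  calc ‖∑ a ∈ Ico 1 p, ∑ b ∈ Ico 1 q, co p f a * co q g b * (SU U p q a b * SU V p q a b)‖ ≤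
        ∑ a ∈ Ico 1 p, ∑ b ∈ Ico 1 q, α * β * (‖SU U p q a b‖ * ‖SU V p q a b‖) := by
          refine (norm_sum_le _ _).trans (sum_le_sum fun a ha => ?_)
          refine (norm_sum_le _ _).trans (sum_le_sum fun b hb => ?_)
          rw [norm_mul, norm_mul, norm_mul]
          apply mul_le_mul_of_nonneg_right _ (by positivity)
          exact mul_le_mul (hα a ha) (hβ b hb) (norm_nonneg _) hα0
    _ = α * β * ∑ a ∈ Ico 1 p, ∑ b ∈ Ico 1 q, ‖SU U p q a b‖ * ‖SU V p q a b‖ := by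
        rw [mul_sum]
        exact sum_congr rfl fun a _ => by rw [mul_sum]
    _ ≤ α * β * ((p * q) * Real.sqrt (coll U p q * coll V p q)) :=
        mul_le_mul_of_nonneg_left hcs (by positivity)
    _ = _ := by ring

/-- the number of the primes of `P` that divide a nonzero difference -/
lemma sum_coll (U : Finset ℤ) (P : Finset ℕ) (Λ : ℝ) (hΛ0 : 0 ≤ Λ)
    (hΛ : ∀ u ∈ U, ∀ u' ∈ U, u ≠ u' → ((P.filter (fun p : ℕ => (p : ℤ) ∣ u - u')).card : ℝ) ≤ Λ) :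
    ∑ p ∈ P, ∑ q ∈ P, (coll U p q : ℝ) ≤ (U.card : ℝ) * (P.card : ℝ) ^ 2 + (U.card : ℝ) ^ 2 * Λ ^ 2 := by
  classical
  have h1 : ∑ p ∈ P, ∑ q ∈ P, (coll U p q : ℝ) =
      ∑ z ∈ U ×ˢ U, ((P.filter (fun p : ℕ => (p : ℤ) ∣ z.1 - z.2)).card : ℝ) ^ 2 := by
    have e0 : ∀ p q : ℕ, (coll U p q : ℝ) = ∑ z ∈ U ×ˢ U,
        (if (p : ℤ) ∣ z.1 - z.2 then (1 : ℝ) else 0) * (if (q : ℤ) ∣ z.1 - z.2 then (1 : ℝ) else 0) := by
      intro p q
      unfold coll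
      rw [card_filter]
      push_cast
      apply sum_congr rfl
      intro z _
      by_cases h1 : (p : ℤ) ∣ z.1 - z.2 <;> by_cases h2 : (q : ℤ) ∣ z.1 - z.2 <;> simp [h1, h2]
    simp only [e0]
    have e1 : ∀ p ∈ P, ∑ q ∈ P, ∑ z ∈ U ×ˢ U,
        (if (p : ℤ) ∣ z.1 - z.2 then (1 : ℝ) else 0) * (if (q : ℤ) ∣ z.1 - z.2 then (1 : ℝ) else 0) =
        ∑ z ∈ U ×ˢ U, ∑ q ∈ P,
        (if (p : ℤ) ∣ z.1 - z.2 then (1 : ℝ) else 0) * (if (q : ℤ) ∣ z.1 - z.2 then (1 : ℝ) else 0) :=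
      fun p _ => sum_comm
    rw [sum_congr rfl e1, sum_comm]
    apply sum_congr rfl
    intro z _
    rw [← sum_mul_sum, sq]
    have e2 : ∑ p ∈ P, (if (p : ℤ) ∣ z.1 - z.2 then (1 : ℝ) else 0) =
        ((P.filter (fun p : ℕ => (p : ℤ) ∣ z.1 - z.2)).card : ℝ) := by
      rw [← sum_filter, sum_const, nsmul_eq_mul, mul_one]
    rw [e2]
  rw [h1]
  have h2 : ∀ z ∈ U ×ˢ U, ((P.filter (fun p : ℕ => (p : ℤ) ∣ z.1 - z.2)).card : ℝ) ^ 2 ≤
      (if z.1 = z.2 then (P.card : ℝ) ^ 2 else 0) + Λ ^ 2 := by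
    intro z hz
    rw [mem_product] at hz
    split_ifs with h
    · have : ((P.filter (fun p : ℕ => (p : ℤ) ∣ z.1 - z.2)).card : ℝ) ≤ P.card := by
        exact_mod_cast card_le_card (filter_subset _ _)
      have h3 := pow_le_pow_left₀ (Nat.cast_nonneg _) this 2
      have h4 : 0 ≤ Λ ^ 2 := by positivity
      linarith
    · have := hΛ z.1 hz.1 z.2 hz.2 h
      have h3 := pow_le_pow_left₀ (Nat.cast_nonneg _) this 2
      linarith
  refine (sum_le_sum h2).trans ?_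
  rw [sum_add_distrib]
  have h3 : ∑ z ∈ U ×ˢ U, (if z.1 = z.2 then (P.card : ℝ) ^ 2 else 0) = (U.card : ℝ) * (P.card : ℝ) ^ 2 := by
    rw [sum_product' U U (fun a b => if a = b then (P.card : ℝ) ^ 2 else 0)]
    rw [sum_congr rfl (fun a ha => by rw [sum_ite_eq, if_pos ha])]
    rw [sum_const, nsmul_eq_mul]
  have h4 : ∑ _z ∈ U ×ˢ U, Λ ^ 2 = (U.card : ℝ) ^ 2 * Λ ^ 2 := by
    rw [sum_const, card_product, nsmul_eq_mul]
    push_cast
    ring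
  rw [h3, h4]

/-- the second moment -/
theorem second (U V : Finset ℤ) (x : ℕ) (P : Finset ℕ) (hP : ∀ p ∈ P, 1 ≤ p ∧ p ≤ x) (f : ℕ → ℤ → ℝ)
    (hf : ∀ p n, 0 ≤ f p n ∧ f p n ≤ 1) (hper : ∀ p ∈ P, Per p (f p)) (T : ℝ) (hT0 : 0 ≤ T)
    (hT : ∀ p ∈ P, ∀ a ∈ Ico 1 p, ‖co p (f p) a‖ ≤ T / Real.sqrt p) (Λ : ℝ) (hΛ0 : 0 ≤ Λ)
    (hΛU : ∀ u ∈ U, ∀ u' ∈ U, u ≠ u' → ((P.filter (fun p : ℕ => (p : ℤ) ∣ u - u')).card : ℝ) ≤ Λ)
    (hΛV : ∀ u ∈ V, ∀ u' ∈ V, u ≠ u' → ((P.filter (fun p : ℕ => (p : ℤ) ∣ u - u')).card : ℝ) ≤ Λ) :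
    ∑ u ∈ U, ∑ v ∈ V, (∑ p ∈ P, (f p (u + v) - mean p (f p))) ^ 2 ≤
      (P.card : ℝ) * (U.card * V.card) + T ^ 2 * x *
        Real.sqrt (((U.card : ℝ) * (P.card : ℝ) ^ 2 + (U.card : ℝ) ^ 2 * Λ ^ 2) *
          ((V.card : ℝ) * (P.card : ℝ) ^ 2 + (V.card : ℝ) ^ 2 * Λ ^ 2)) := by
  classical
  have hcent : ∀ p ∈ P, ∀ n, |f p n - mean p (f p)| ≤ 1 := by
    intro p hp n
    have h1 := hf p n
    have h2 := mean_mem p (hP p hp).1 (f p) (hf p)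
    rw [abs_le]
    constructor <;> linarith [h1.1, h1.2, h2.1, h2.2]
  have h1 : ∑ u ∈ U, ∑ v ∈ V, (∑ p ∈ P, (f p (u + v) - mean p (f p))) ^ 2 =
      ∑ p ∈ P, ∑ q ∈ P, ∑ u ∈ U, ∑ v ∈ V, (f p (u + v) - mean p (f p)) * (f q (u + v) - mean q (f q)) := by
    have e0 : ∀ u ∈ U, ∀ v ∈ V, (∑ p ∈ P, (f p (u + v) - mean p (f p))) ^ 2 =
        ∑ p ∈ P, ∑ q ∈ P, (f p (u + v) - mean p (f p)) * (f q (u + v) - mean q (f q)) := by
      intro u _ v _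
      rw [sq, sum_mul_sum]
    rw [sum_congr rfl (fun u hu => sum_congr rfl (fun v hv => e0 u hu v hv))]
    have e1 : ∀ u ∈ U, ∑ v ∈ V, ∑ p ∈ P, ∑ q ∈ P, (f p (u + v) - mean p (f p)) * (f q (u + v) - mean q (f q)) =
        ∑ p ∈ P, ∑ q ∈ P, ∑ v ∈ V, (f p (u + v) - mean p (f p)) * (f q (u + v) - mean q (f q)) := by
      intro u _
      rw [sum_comm]
      exact sum_congr rfl fun p _ => sum_comm
    rw [sum_congr rfl e1, sum_comm]
    exact sum_congr rfl fun p _ => sum_comm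
  rw [h1]
  have hterm : ∀ p ∈ P, ∀ q ∈ P, ∑ u ∈ U, ∑ v ∈ V, (f p (u + v) - mean p (f p)) * (f q (u + v) - mean q (f q)) ≤
      (if p = q then (U.card * V.card : ℝ) else 0) + T ^ 2 * x * (Real.sqrt (coll U p q) * Real.sqrt (coll V p q)) := by
    intro p hp q hq
    have hnn : 0 ≤ T ^ 2 * x * (Real.sqrt (coll U p q) * Real.sqrt (coll V p q)) := by positivity
    by_cases hpq : p = q
    · rw [if_pos hpq]
      have h2 : ∑ u ∈ U, ∑ v ∈ V, (f p (u + v) - mean p (f p)) * (f q (u + v) - mean q (f q)) ≤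
          ∑ u ∈ U, ∑ v ∈ V, (1 : ℝ) := by
        apply sum_le_sum
        intro u _
        apply sum_le_sum
        intro v _
        refine (le_abs_self _).trans ?_
        rw [abs_mul]
        exact mul_le_one₀ (hcent p hp _) (abs_nonneg _) (hcent q hq _)
      rw [sum_const, sum_const, nsmul_eq_mul, nsmul_eq_mul, mul_one] at h2
      linarith
    · rw [if_neg hpq, zero_add]
      refine (le_abs_self _).trans ?_
      have hp1 := (hP p hp).1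
      have hq1 := (hP q hq).1
      have hp0 : (0 : ℝ) < p := by exact_mod_cast hp1
      have hq0 : (0 : ℝ) < q := by exact_mod_cast hq1
      have hsp : 0 < Real.sqrt p := Real.sqrt_pos.2 hp0
      have hsq : 0 < Real.sqrt q := Real.sqrt_pos.2 hq0
      have h2 := cov2 U V p q hp1 hq1 (f p) (f q) (hper p hp) (hper q hq) (T / Real.sqrt p) (T / Real.sqrt q)
        (by positivity) (by positivity) (hT p hp) (hT q hq)
      refine h2.trans ?_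
      rw [Real.sqrt_mul (Nat.cast_nonneg _)]
      apply mul_le_mul_of_nonneg_right _ (by positivity)
      have e1 : T / Real.sqrt p * (T / Real.sqrt q) * (p * q) = T ^ 2 * (Real.sqrt p * Real.sqrt q) := by
        have e2 : (p : ℝ) = Real.sqrt p * Real.sqrt p := (Real.mul_self_sqrt hp0.le).symm
        have e3 : (q : ℝ) = Real.sqrt q * Real.sqrt q := (Real.mul_self_sqrt hq0.le).symm
        have e4 : (p : ℝ) * q = Real.sqrt p * Real.sqrt p * (Real.sqrt q * Real.sqrt q) := by rw [← e2, ← e3]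
        rw [e4]
        field_simp
      rw [e1]
      apply mul_le_mul_of_nonneg_left _ (by positivity)
      have hx0 : (0 : ℝ) ≤ x := Nat.cast_nonneg _
      calc Real.sqrt p * Real.sqrt q ≤ Real.sqrt x * Real.sqrt x :=
            mul_le_mul (Real.sqrt_le_sqrt (by exact_mod_cast (hP p hp).2))
              (Real.sqrt_le_sqrt (by exact_mod_cast (hP q hq).2)) (Real.sqrt_nonneg _) (Real.sqrt_nonneg _)
        _ = x := Real.mul_self_sqrt hx0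
  refine (sum_le_sum fun p hp => sum_le_sum fun q hq => hterm p hp q hq).trans ?_
  simp only [sum_add_distrib]
  have e1 : ∑ p ∈ P, ∑ q ∈ P, (if p = q then (U.card * V.card : ℝ) else 0) = (P.card : ℝ) * (U.card * V.card) := by
    rw [sum_congr rfl (fun p hp => by rw [sum_ite_eq, if_pos hp])]
    rw [sum_const, nsmul_eq_mul]
  have e2 : ∑ p ∈ P, ∑ q ∈ P, T ^ 2 * x * (Real.sqrt (coll U p q) * Real.sqrt (coll V p q)) =
      T ^ 2 * x * ∑ z ∈ P ×ˢ P, Real.sqrt (coll U z.1 z.2) * Real.sqrt (coll V z.1 z.2) := by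
    rw [sum_product' P P (fun p q => Real.sqrt (coll U p q) * Real.sqrt (coll V p q)), mul_sum]
    exact sum_congr rfl fun p _ => by rw [mul_sum]
  rw [e1, e2]
  have h3 := Real.sum_mul_le_sqrt_mul_sqrt (P ×ˢ P) (fun z => Real.sqrt (coll U z.1 z.2)) (fun z => Real.sqrt (coll V z.1 z.2))
  have h4 : ∀ W : Finset ℤ, ∑ z ∈ P ×ˢ P, Real.sqrt (coll W z.1 z.2) ^ 2 = ∑ p ∈ P, ∑ q ∈ P, (coll W p q : ℝ) := by
    intro W
    rw [← sum_product' P P (fun p q => (coll W p q : ℝ))]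
    exact sum_congr rfl fun z _ => Real.sq_sqrt (Nat.cast_nonneg _)
  rw [h4, h4] at h3
  have h5 := sum_coll U P Λ hΛ0 hΛU
  have h6 := sum_coll V P Λ hΛ0 hΛV
  have h7 : ∑ z ∈ P ×ˢ P, Real.sqrt (coll U z.1 z.2) * Real.sqrt (coll V z.1 z.2) ≤
      Real.sqrt (((U.card : ℝ) * (P.card : ℝ) ^ 2 + (U.card : ℝ) ^ 2 * Λ ^ 2) *
          ((V.card : ℝ) * (P.card : ℝ) ^ 2 + (V.card : ℝ) ^ 2 * Λ ^ 2)) := by
    refine h3.trans ?_
    rw [Real.sqrt_mul (by positivity)]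
    exact mul_le_mul (Real.sqrt_le_sqrt h5) (Real.sqrt_le_sqrt h6) (Real.sqrt_nonneg _) (Real.sqrt_nonneg _)
  have h8 : 0 ≤ T ^ 2 * (x : ℝ) := by positivity
  have := mul_le_mul_of_nonneg_left h7 h8
  linarith

end Pool.Agent.T6.H1.Sm
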