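import Pool.Agent.R318.PR.Gen

/-! # From one `x` to all `x` -/

set_option autoImplicit false

namespace Pool.Agent.T6.H1.Sm

open Finset Filter
open Pool.Agent.H730R2.AA Pool.Agent.H730R2.AA.Grid
open Pool.Agent.R318.PR (coreG)

open Classical in
/-- the bounds for the exceptional sets at the points of the grid give a bound for all `x`;
`G'` holds at the points up to `4 x`, if `G x` holds -/
theorem all_abs (δ ε κ : ℝ) (hε : 0 < ε) (hκ : 0 < κ) : ∃ ε₁ : ℝ, 0 < ε₁ ∧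
    ∀ (C₁ : ℝ) (X₁ : ℕ), 0 < C₁ → ∃ (C : ℝ) (X₀ : ℕ), 0 < C ∧ 4 ≤ X₀ ∧ X₁ ≤ X₀ ∧ ∀ (ι : Type) (Ω : Finset ι) (N : ι → ℕ → ℕ), (∀ i, Monotone (N i)) →
      ∀ (G G' : ℕ → Prop) (Y : ℕ), X₀ ≤ Y → (∀ x y : ℕ, G x → Y ≤ x → (Y : ℝ) / 2 ≤ y → y ≤ 4 * x → G' y) →
      (∀ y : ℕ, X₁ ≤ y → G' y → ((Ω.filter (fun i => ε₁ * (Nat.primeCounting y : ℝ) <
        |(N i y : ℝ) - δ * Nat.primeCounting y|)).card : ℝ) ≤ C₁ * (y : ℝ) ^ (-κ) * Ω.card) →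
      ((Ω.filter (fun i => ∃ x : ℕ, Y ≤ x ∧ G x ∧ ε * (Nat.primeCounting x : ℝ) <
        |(N i x : ℝ) - δ * Nat.primeCounting x|)).card : ℝ) ≤ C * (Y : ℝ) ^ (-κ) * Ω.card := by
  have hd := abs_nonneg δ
  obtain ⟨ε₁, hε₁def⟩ : ∃ ε₁ : ℝ, ε₁ = min 1 (ε / (|δ| + 3)) := ⟨_, rfl⟩
  have hε₁ : 0 < ε₁ := by rw [hε₁def]; exact lt_min one_pos (by positivity)
  have hε₁1 : ε₁ ≤ 1 := by rw [hε₁def]; exact min_le_left _ _
  have hεε : (|δ| + 3) * ε₁ ≤ ε := by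
    have : ε₁ ≤ ε / (|δ| + 3) := by rw [hε₁def]; exact min_le_right _ _
    rw [le_div_iff₀ (by positivity)] at this
    linarith
  obtain ⟨ρ, hρ, hρ2, X2, hX2, hpi⟩ := pi_ratio ε₁ hε₁
  have hρ0 : 0 < ρ := by linarith
  have hρρ : 0 < ρ ^ 2 - ρ := by nlinarith
  obtain ⟨Q, hQ⟩ := exists_nat_ge (1 / (ρ ^ 2 - ρ))
  obtain ⟨r, hr⟩ : ∃ r : ℝ, r = ρ ^ (-κ) := ⟨_, rfl⟩
  have hr0 : 0 < r := by rw [hr]; positivity
  have hr1 : r < 1 := by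
    rw [hr]
    exact Real.rpow_lt_one_of_one_lt_of_neg hρ (by linarith)
  refine ⟨ε₁, hε₁, fun C₁ X₁ hC₁ => ⟨C₁ * (2 ^ κ * (1 - r)⁻¹), 2 * (max X₁ X2 + Q) + 4, ?_, by omega, by omega, ?_⟩⟩
  · have : 0 < 1 - r := by linarith
    positivity
  intro ι Ω N hN G G' Y hY hGG hone
  have hY4 : 4 ≤ Y := by omega
  have hY1 : (1 : ℝ) ≤ Y := by exact_mod_cast (by omega : 1 ≤ Y)
  have hY0 : (0 : ℝ) < Y := by linarith
  obtain ⟨J0, hJ1, hJ2⟩ := exists_nat_pow_near hY1 hρ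
  have hhalf : (Y : ℝ) / 2 ≤ ρ ^ J0 := by
    rw [pow_succ] at hJ2
    have h2 : ρ ^ J0 * ρ ≤ ρ ^ J0 * 2 := mul_le_mul_of_nonneg_left hρ2 (by positivity)
    linarith
  have hYr : 2 * ((max X₁ X2 : ℕ) + (Q : ℝ)) + 4 ≤ Y := by exact_mod_cast hY
  have hXQ : ((max X₁ X2 : ℕ) : ℝ) + Q ≤ g ρ J0 := by
    have := g_ge (ρ := ρ) J0
    linarith
  have hgJ0X : max X₁ X2 ≤ g ρ J0 := by
    have h2 : ((max X₁ X2 : ℕ) : ℝ) ≤ g ρ J0 := by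
      have : (0 : ℝ) ≤ Q := Nat.cast_nonneg _
      linarith
    exact_mod_cast h2
  have hgJ01 : 1 ≤ (ρ ^ 2 - ρ) * g ρ J0 := by
    have h2 : 1 / (ρ ^ 2 - ρ) ≤ g ρ J0 := by
      have : (0 : ℝ) ≤ ((max X₁ X2 : ℕ) : ℝ) := Nat.cast_nonneg _
      linarith
    rw [div_le_iff₀ hρρ] at h2
    linarith
  have hgY : g ρ J0 ≤ Y := Nat.ceil_le.2 hJ1
  obtain ⟨E, hE⟩ : ∃ E, E = Ω.filter (fun i => ∃ x : ℕ, Y ≤ x ∧ G x ∧ ε * (Nat.primeCounting x : ℝ) <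
        |(N i x : ℝ) - δ * Nat.primeCounting x|) := ⟨_, rfl⟩
  rw [← hE]
  obtain ⟨EE, hEE⟩ : ∃ EE : ℕ → Finset ι, EE = fun j => Ω.filter (fun i =>
    ε₁ * (Nat.primeCounting (g ρ j) : ℝ) < |(N i (g ρ j) : ℝ) - δ * Nat.primeCounting (g ρ j)|) := ⟨_, rfl⟩
  have hex : ∀ i : ι, ∃ j : ℕ, i ∈ E → J0 ≤ j ∧ G' (g ρ j) ∧ i ∈ EE j := by
    intro i
    by_cases hi : i ∈ E
    · have hi' := hi
      rw [hE, mem_filter] at hi'
      obtain ⟨hiΩ, x, hx1, hx2, hx3⟩ := hi'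
      obtain ⟨j, hj1, hj2, hj3⟩ := coreG (N i) (hN _) δ hε₁ hε₁1 hεε hρ hρ2
        (fun x y hx => hpi x y ((le_max_right _ _).trans hx)) hgJ0X hgJ01 x (hgY.trans hx1) hx3
      refine ⟨j, fun _ => ⟨hj1, hGG x (g ρ j) hx2 hx1 ?_ hj2, ?_⟩⟩
      · refine hhalf.trans ?_
        refine le_trans ?_ (g_ge (ρ := ρ) j)
        exact pow_le_pow_right₀ hρ.le hj1
      · rw [hEE, mem_filter]
        exact ⟨hiΩ, hj3⟩
    · exact ⟨0, fun h => absurd h hi⟩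
  choose jj hjj using hex
  obtain ⟨I, hI⟩ : ∃ I : Finset ℕ, I = E.image jj := ⟨_, rfl⟩
  have hcover : E ⊆ I.biUnion EE := by
    intro i hi
    rw [mem_biUnion]
    refine ⟨jj i, ?_, (hjj i hi).2.2⟩
    rw [hI, mem_image]
    exact ⟨i, hi, rfl⟩
  have hIj : ∀ j ∈ I, J0 ≤ j ∧ G' (g ρ j) := by
    intro j hj
    rw [hI, mem_image] at hj
    obtain ⟨i, hi, rfl⟩ := hj
    exact ⟨(hjj i hi).1, (hjj i hi).2.1⟩
  have h1 : (E.card : ℝ) ≤ ∑ j ∈ I, ((EE j).card : ℝ) := by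
    exact_mod_cast (card_le_card hcover).trans card_biUnion_le
  have h2 : ∀ j ∈ I, ((EE j).card : ℝ) ≤ C₁ * r ^ j * Ω.card := by
    intro j hj
    have h3 := hIj j hj
    have hgX : max X₁ X2 ≤ g ρ j := hgJ0X.trans (g_mono hρ h3.1)
    have h4 := hone (g ρ j) ((le_max_left _ _).trans hgX) h3.2
    rw [hEE]
    refine h4.trans ?_
    apply mul_le_mul_of_nonneg_right _ (Nat.cast_nonneg _)
    apply mul_le_mul_of_nonneg_left _ hC₁.le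
    have h5 : r ^ j = (ρ ^ j) ^ (-κ) := by
      rw [hr, ← Real.rpow_natCast, ← Real.rpow_mul hρ0.le, ← Real.rpow_natCast, ← Real.rpow_mul hρ0.le]
      congr 1
      ring
    rw [h5]
    exact Real.rpow_le_rpow_of_nonpos (by positivity) (g_ge j) (by linarith)
  refine (h1.trans (sum_le_sum h2)).trans ?_
  have h3 : ∑ j ∈ I, C₁ * r ^ j * (Ω.card : ℝ) = C₁ * (∑ j ∈ I, r ^ j) * Ω.card := by
    rw [mul_sum, sum_mul]
  rw [h3]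
  apply mul_le_mul_of_nonneg_right _ (Nat.cast_nonneg _)
  rw [mul_assoc]
  apply mul_le_mul_of_nonneg_left _ hC₁.le
  have h4 : ∑ j ∈ I, r ^ j ≤ r ^ J0 * (1 - r)⁻¹ := by
    have h5 : ∑ j ∈ I, r ^ j = r ^ J0 * ∑ j ∈ I, r ^ (j - J0) := by
      rw [mul_sum]
      apply sum_congr rfl
      intro j hj
      rw [← pow_add]
      congr 1
      have := (hIj j hj).1
      omega
    rw [h5]
    apply mul_le_mul_of_nonneg_left _ (by positivity)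
    have h6 : ∑ j ∈ I, r ^ (j - J0) = ∑ m ∈ I.image (fun j => j - J0), r ^ m := by
      rw [sum_image]
      intro a ha b hb hab
      have h7 := (hIj a ha).1
      have h8 := (hIj b hb).1
      simp only at hab
      omega
    rw [h6, ← tsum_geometric_of_lt_one hr0.le hr1]
    exact (summable_geometric_of_lt_one hr0.le hr1).sum_le_tsum _ (fun _ _ => by positivity)
  refine h4.trans ?_
  have h5 : r ^ J0 ≤ 2 ^ κ * (Y : ℝ) ^ (-κ) := by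
    have h6 : r ^ J0 = (ρ ^ J0) ^ (-κ) := by
      rw [hr, ← Real.rpow_natCast, ← Real.rpow_mul hρ0.le, ← Real.rpow_natCast, ← Real.rpow_mul hρ0.le]
      congr 1
      ring
    rw [h6]
    calc (ρ ^ J0) ^ (-κ) ≤ ((Y : ℝ) / 2) ^ (-κ) :=
          Real.rpow_le_rpow_of_nonpos (by positivity) hhalf (by linarith)
      _ = 2 ^ κ * (Y : ℝ) ^ (-κ) := by
          rw [Real.div_rpow hY0.le (by norm_num), Real.rpow_neg (by norm_num : (0 : ℝ) ≤ 2)]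
          field_simp
  have h6 : 0 ≤ (1 - r)⁻¹ := by
    have : 0 < 1 - r := by linarith
    positivity
  calc r ^ J0 * (1 - r)⁻¹ ≤ (2 ^ κ * (Y : ℝ) ^ (-κ)) * (1 - r)⁻¹ := mul_le_mul_of_nonneg_right h5 h6
    _ = _ := by ring

end Pool.Agent.T6.H1.Sm
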