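import Pool.Agent.T6.H1.Sm.One
import Pool.Agent.T6.H1.Sm.All

/-! # Sums of the elements of two arbitrary sets: all `x` -/

set_option autoImplicit false

namespace Pool.Agent.T6.H1.Sm

open Finset Filter
open Pool.Agent.R459.Eq (co mean Per small_ev)
open Pool.Agent.R318.PR (GP mem_GP)

/-- the conditions on `x` -/
def Cd (η L a b : ℝ) (x : ℕ) : Prop :=
  (x : ℝ) ^ (2 + η) ≤ a * b ∧ (x : ℝ) ^ η * L ^ 2 ≤ a ∧ (x : ℝ) ^ η * L ^ 2 ≤ b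

/-- weaker conditions at the points `y` of the grid -/
lemma cd_step (η : ℝ) (hη : 0 < η) (hη1 : η ≤ 1) : ∃ X : ℕ, 4 ≤ X ∧ ∀ (L a b : ℝ) (x y Y : ℕ), 0 < L → X ≤ Y →
    L ^ (2 + η) ≤ Y → Cd η L a b x → Y ≤ x → (Y : ℝ) / 2 ≤ y → y ≤ 4 * x →
    Cd (η / 2) L a b y ∧ L ^ (2 + η / 2) ≤ y := by
  have hev : ∀ᶠ x : ℝ in atTop, 4 ≤ x ^ (η / 6) := (tendsto_rpow_atTop (by positivity)).eventually_ge_atTop _
  obtain ⟨X, hX⟩ := eventually_atTop.1 ((tendsto_natCast_atTop_atTop (R := ℝ)).eventually hev)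
  refine ⟨max X 4, le_max_right _ _, fun L a b x y Y hL hY hLY hC hYx hYy hyx => ?_⟩
  have hYX : X ≤ Y := (le_max_left _ _).trans hY
  have hY4 : 4 ≤ Y := (le_max_right _ _).trans hY
  have hY6 := hX Y hYX
  have hx6 := hX x (hYX.trans hYx)
  have hY4' : (4 : ℝ) ≤ Y := by exact_mod_cast hY4
  have hx4' : (4 : ℝ) ≤ x := by exact_mod_cast hY4.trans hYx
  have hx0 : (0 : ℝ) < x := by linarith
  have hx1 : (1 : ℝ) ≤ x := by linarith
  have hY0 : (0 : ℝ) < Y := by linarith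
  have hy0 : (0 : ℝ) < y := by linarith
  have hyx' : (y : ℝ) ≤ 4 * x := by exact_mod_cast hyx
  have hx2 : (64 : ℝ) ≤ (x : ℝ) ^ (η / 2) := by
    have h1 : (x : ℝ) ^ (η / 2) = ((x : ℝ) ^ (η / 6)) ^ 3 := by
      rw [← Real.rpow_natCast, ← Real.rpow_mul hx0.le]; congr 1; push_cast; ring
    rw [h1]
    calc (64 : ℝ) = 4 ^ 3 := by norm_num
      _ ≤ _ := pow_le_pow_left₀ (by norm_num) hx6 3
  have h4a : (4 : ℝ) ^ (2 + η / 2) ≤ 64 := by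
    calc (4 : ℝ) ^ (2 + η / 2) ≤ 4 ^ (3 : ℝ) := Real.rpow_le_rpow_of_exponent_le (by norm_num) (by linarith)
      _ = 64 := by norm_num
  have h4b : (4 : ℝ) ^ (η / 2) ≤ 64 := by
    calc (4 : ℝ) ^ (η / 2) ≤ 4 ^ (3 : ℝ) := Real.rpow_le_rpow_of_exponent_le (by norm_num) (by linarith)
      _ = 64 := by norm_num
  obtain ⟨c1, c2, c3⟩ := hC
  have hmid : (y : ℝ) ^ (η / 2) ≤ (x : ℝ) ^ η := by
    calc (y : ℝ) ^ (η / 2) ≤ (4 * x) ^ (η / 2) := Real.rpow_le_rpow hy0.le hyx' (by positivity)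
      _ = 4 ^ (η / 2) * (x : ℝ) ^ (η / 2) := Real.mul_rpow (by norm_num) hx0.le
      _ ≤ (x : ℝ) ^ (η / 2) * (x : ℝ) ^ (η / 2) := mul_le_mul_of_nonneg_right (h4b.trans hx2) (by positivity)
      _ = (x : ℝ) ^ η := by rw [← Real.rpow_add hx0]; congr 1; ring
  refine ⟨⟨?_, ?_, ?_⟩, ?_⟩
  · refine le_trans ?_ c1
    calc (y : ℝ) ^ (2 + η / 2) ≤ (4 * x) ^ (2 + η / 2) := Real.rpow_le_rpow hy0.le hyx' (by positivity)
      _ = 4 ^ (2 + η / 2) * (x : ℝ) ^ (2 + η / 2) := Real.mul_rpow (by norm_num) hx0.le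
      _ ≤ (x : ℝ) ^ (η / 2) * (x : ℝ) ^ (2 + η / 2) := mul_le_mul_of_nonneg_right (h4a.trans hx2) (by positivity)
      _ = (x : ℝ) ^ (2 + η) := by rw [← Real.rpow_add hx0]; congr 1; ring
  · exact le_trans (mul_le_mul_of_nonneg_right hmid (sq_nonneg _)) c2
  · exact le_trans (mul_le_mul_of_nonneg_right hmid (sq_nonneg _)) c3
  · refine le_trans ?_ hYy
    have h1 : L ^ (2 + η / 2) = (L ^ (2 + η)) ^ ((2 + η / 2) / (2 + η)) := by
      rw [← Real.rpow_mul hL.le]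
      congr 1
      field_simp
    have h2 : (L ^ (2 + η)) ^ ((2 + η / 2) / (2 + η)) ≤ (Y : ℝ) ^ ((2 + η / 2) / (2 + η)) :=
      Real.rpow_le_rpow (by positivity) hLY (by positivity)
    have h3 : (Y : ℝ) ^ ((2 + η / 2) / (2 + η)) ≤ (Y : ℝ) ^ (1 - η / 6) := by
      apply Real.rpow_le_rpow_of_exponent_le (by linarith)
      rw [div_le_iff₀ (by linarith)]
      nlinarith
    have h4 : (Y : ℝ) ^ (1 - η / 6) ≤ Y / 2 := by
      rw [Real.rpow_sub hY0, Real.rpow_one]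
      exact div_le_div_of_nonneg_left hY0.le (by norm_num) (by linarith)
    rw [h1]
    linarith

open Classical in
/-- **all `x`** -/
theorem all_sum (M : ℕ) (f : ℕ → ℤ → ℝ) (δ : ℝ) (hF : Fam M f δ) (N : ℤ → ℕ → ℕ) (hN : ∀ v, Monotone (N v))
    (K : ℝ) (hK : ∀ v x, |(N v x : ℝ) - ∑ p ∈ GP M x, f p v| ≤ K) (η : ℝ) (hη : 0 < η) (hη1 : η ≤ 1)
    (ε : ℝ) (hε : 0 < ε) : ∃ (C : ℝ) (X₀ : ℕ), 0 < C ∧ 4 ≤ X₀ ∧ ∀ (Y N₀ : ℕ) (U V : Finset ℤ), X₀ ≤ Y → 1 ≤ N₀ →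
      (∀ u ∈ U, |u| ≤ N₀) → (∀ v ∈ V, |v| ≤ N₀) → Real.log (2 * N₀) ^ (2 + η) ≤ Y →
      (((U ×ˢ V).filter (fun z => ∃ x : ℕ, Y ≤ x ∧ Cd η (Real.log (2 * N₀)) U.card V.card x ∧
        ε * (Nat.primeCounting x : ℝ) < |(N (z.1 + z.2) x : ℝ) - δ * Nat.primeCounting x|)).card : ℝ) ≤
        C * (Y : ℝ) ^ (-(η / 16)) * (U.card * V.card) := by
  obtain ⟨ε₁, hε₁, hall⟩ := all_abs δ ε (η / 16) hε (by positivity)
  obtain ⟨C₁, X₁, hC₁, hX₁4, hone⟩ := one_sum M f δ hF (η / 2) (by positivity) (by linarith) (ε₁ / 2) (by positivity)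
  obtain ⟨X₂, hX₂4, hsmall⟩ := small_ev K (ε₁ / 2) (by positivity)
  obtain ⟨C, X₀, hC, hX₀4, hX₀, hmain⟩ := hall C₁ (max X₁ X₂) hC₁
  obtain ⟨X₃, hX₃4, hstep⟩ := cd_step η hη hη1
  refine ⟨C, max X₀ X₃, hC, hX₀4.trans (le_max_left _ _), ?_⟩
  intro Y N₀ U V hY hN₀ hU hV hLY
  have hN1 : (1 : ℝ) ≤ N₀ := by exact_mod_cast hN₀
  have hL0 : 0 < Real.log (2 * N₀) := Real.log_pos (by linarith)
  have h1 := hmain (ℤ × ℤ) (U ×ˢ V) (fun z => N (z.1 + z.2)) (fun z => hN _)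
    (fun x => Cd η (Real.log (2 * N₀)) U.card V.card x)
    (fun y => Cd (η / 2) (Real.log (2 * N₀)) U.card V.card y ∧ Real.log (2 * N₀) ^ (2 + η / 2) ≤ y)
    Y ((le_max_left _ _).trans hY)
    (fun x y hG hYx hYy hyx => hstep _ _ _ x y Y hL0 ((le_max_right _ _).trans hY) hLY hG hYx hYy hyx) ?_
  · rw [card_product] at h1
    push_cast at h1
    exact h1
  · intro y hy hG'
    have hy1 : X₁ ≤ y := (le_max_left _ _).trans hy
    have hy2 : X₂ ≤ y := (le_max_right _ _).trans hy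
    have h2 := hone y N₀ U V hy1 hN₀ hU hV hG'.1.1 hG'.1.2.1 hG'.1.2.2 hG'.2
    have e : η / 2 / 8 = η / 16 := by ring
    rw [e] at h2
    rw [card_product]
    push_cast
    refine le_trans ?_ h2
    have hsub : (U ×ˢ V).filter (fun z => ε₁ * (Nat.primeCounting y : ℝ) <
        |(N (z.1 + z.2) y : ℝ) - δ * Nat.primeCounting y|) ⊆
        (U ×ˢ V).filter (fun z => ε₁ / 2 * (Nat.primeCounting y : ℝ) <
        |∑ p ∈ GP M y, f p (z.1 + z.2) - δ * Nat.primeCounting y|) := by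
      intro z hz
      rw [mem_filter] at hz ⊢
      refine ⟨hz.1, ?_⟩
      have h3 := hsmall y hy2
      have h4 := hK (z.1 + z.2) y
      have h5 := hz.2
      have h6 : 0 ≤ Real.log y := Real.log_nonneg (by exact_mod_cast (by omega : 1 ≤ y))
      have h7 := abs_sub_le (N (z.1 + z.2) y : ℝ) (∑ p ∈ GP M y, f p (z.1 + z.2)) (δ * Nat.primeCounting y)
      linarith
    exact_mod_cast card_le_card hsub

end Pool.Agent.T6.H1.Sm
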