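import Pool.Agent.R459.Eq2
import Pool.Agent.H730R2.AA.Expand
import Pool.Agent.R318.PR.Mean

/-! # The Fourier coefficients of the indicator of the primitive roots `B n ^ r` -/

set_option autoImplicit false

namespace Pool.Agent.T6.H1.Sm

open Finset
open Pool.Agent.H807R2.Dav
open Pool.Agent.R459.Eq (co mean Per)
open Pool.Agent.H730R2.AA.Exp

variable {p : ℕ} [hp : Fact p.Prime]

/-- the norm of a Gauss sum -/
lemma norm_gauss (χ : DirichletCharacter ℂ p) (ψ : AddChar (ZMod p) ℂ) (hψ : ψ.IsPrimitive) :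
    ‖gaussSum χ ψ‖ ≤ Real.sqrt p := by
  have hp1 : (1 : ℝ) ≤ p := by exact_mod_cast hp.out.one_le
  by_cases hχ : χ = 1
  · have hne : ψ ≠ 1 := by
      intro h
      have h1 := hψ (one_ne_zero)
      rw [AddChar.mulShift_one] at h1
      exact h1 h
    rw [hχ, gaussSum_one_left hne, norm_neg, norm_one, Real.one_le_sqrt]
    exact hp1
  · have h1 := gaussSum_mul_gaussSum_eq_card hχ hψ
    rw [← star_gaussSum_eq, ZMod.card] at h1
    have h2 : ((‖gaussSum χ ψ‖ ^ 2 : ℝ) : ℂ) = ((p : ℝ) : ℂ) := by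
      rw [← Complex.normSq_eq_norm_sq, Complex.normSq_eq_conj_mul_self, mul_comm]
      rw [← starRingEnd_apply] at h1
      rw [h1]
      push_cast
      rfl
    have h3 : ‖gaussSum χ ψ‖ ^ 2 = p := by exact_mod_cast h2
    rw [← h3, Real.sqrt_sq (norm_nonneg _)]

/-- a sum over the residues as a Gauss sum -/
lemma sum_gauss (χ : DirichletCharacter ℂ p) (a : ℕ) :
    ∑ t ∈ range p, χ ((t : ℕ) : ZMod p) * ee (-((a : ℝ) * ((t : ℝ) / p))) =
      gaussSum χ (AddChar.mulShift ZMod.stdAddChar (-(a : ZMod p))) := by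
  have hp0 : (p : ℂ) ≠ 0 := by exact_mod_cast hp.out.ne_zero
  unfold gaussSum
  refine sum_nbij' (fun t => ((t : ℕ) : ZMod p)) (fun x => x.val) ?_ ?_ ?_ ?_ ?_
  · intro t _; exact mem_univ _
  · intro x _; exact mem_range.2 (ZMod.val_lt x)
  · intro t ht; exact ZMod.val_cast_of_lt (mem_range.1 ht)
  · intro x _; exact ZMod.natCast_zmod_val x
  · intro t _
    congr 1
    rw [AddChar.mulShift_apply]
    have e : -(a : ZMod p) * ((t : ℕ) : ZMod p) = (((-(a : ℤ) * (t : ℤ) : ℤ)) : ZMod p) := by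
      push_cast; ring
    rw [e, ZMod.stdAddChar_coe]
    unfold ee
    congr 1
    push_cast
    field_simp

lemma shift_prim (a : ℕ) (ha : a ∈ Ico 1 p) :
    (AddChar.mulShift (ZMod.stdAddChar (N := p)) (-(a : ZMod p))).IsPrimitive := by
  have hne : -(a : ZMod p) ≠ 0 := by
    rw [neg_ne_zero, Ne, ZMod.natCast_eq_zero_iff]
    intro h
    rw [mem_Ico] at ha
    have := Nat.le_of_dvd (by omega) h
    omega
  intro b hb
  rw [AddChar.mulShift_mulShift]
  exact ZMod.isPrimitive_stdAddChar p (mul_ne_zero hne hb)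

/-- on the integers prime to `p`, the function `f` is a sum of characters with the sum `S` of the absolute
values of the coefficients -/
def Rep (p : ℕ) [Fact p.Prime] (f : ℤ → ℝ) (S : ℝ) : Prop :=
  ∃ β : DirichletCharacter ℂ p → ℂ, (∀ n : ℤ, ¬ (p : ℤ) ∣ n → (f n : ℂ) = ∑ χ, β χ * χ (n : ZMod p)) ∧
    ∑ χ, ‖β χ‖ ≤ S

lemma Rep.mono {f : ℤ → ℝ} {S S' : ℝ} (h : Rep p f S) (hS : S ≤ S') : Rep p f S' := by
  obtain ⟨β, h1, h2⟩ := h
  exact ⟨β, h1, h2.trans hS⟩

/-- **the Fourier coefficients** -/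
theorem co_rep (f : ℤ → ℝ) (hf : ∀ n, 0 ≤ f n ∧ f n ≤ 1) (S : ℝ) (h : Rep p f S) (a : ℕ) (ha : a ∈ Ico 1 p) :
    ‖co p f a‖ ≤ (S + 1) / Real.sqrt p := by
  classical
  obtain ⟨β, h1, h2⟩ := h
  have hp0 : (0 : ℝ) < p := by exact_mod_cast hp.out.pos
  have hp1 : (1 : ℝ) ≤ p := by exact_mod_cast hp.out.one_le
  have hs0 : 0 < Real.sqrt p := Real.sqrt_pos.2 hp0
  have hs1 : 1 ≤ Real.sqrt p := by rw [Real.one_le_sqrt]; exact hp1
  have e1 : ∑ t ∈ range p, (f t : ℂ) * ee (-((a : ℝ) * ((t : ℝ) / p))) =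
      (f 0 : ℂ) + ∑ χ : DirichletCharacter ℂ p, β χ * gaussSum χ (AddChar.mulShift ZMod.stdAddChar (-(a : ZMod p))) := by
    have e2 : ∀ t ∈ range p, (f t : ℂ) * ee (-((a : ℝ) * ((t : ℝ) / p))) =
        (if t = 0 then (f 0 : ℂ) else 0) +
        ∑ χ : DirichletCharacter ℂ p, β χ * (χ ((t : ℕ) : ZMod p) * ee (-((a : ℝ) * ((t : ℝ) / p)))) := by
      intro t ht
      rw [mem_range] at ht
      by_cases ht0 : t = 0
      · rw [if_pos ht0, ht0]
        have : ∀ χ : DirichletCharacter ℂ p, β χ * (χ ((0 : ℕ) : ZMod p) * ee (-((a : ℝ) * (((0 : ℕ) : ℝ) / p)))) = 0 := by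
          intro χ
          rw [Nat.cast_zero, MulChar.map_zero, zero_mul, mul_zero]
        rw [sum_congr rfl (fun χ _ => this χ), sum_const_zero, add_zero]
        simp [ee_zero]
      · rw [if_neg ht0, zero_add]
        have hnd : ¬ (p : ℤ) ∣ (t : ℤ) := by
          intro h
          have := Nat.le_of_dvd (by omega) (Int.natCast_dvd_natCast.1 h)
          omega
        have e3 : (f (t : ℤ) : ℂ) = ∑ χ, β χ * χ ((t : ℕ) : ZMod p) := by
          have := h1 (t : ℤ) hnd
          rw [Int.cast_natCast] at this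
          exact this
        rw [e3, sum_mul]
        exact sum_congr rfl fun χ _ => by ring
    rw [sum_congr rfl e2, sum_add_distrib, sum_comm]
    congr 1
    · rw [sum_ite_eq', if_pos (mem_range.2 hp.out.pos)]
    · refine sum_congr rfl fun χ _ => ?_
      rw [← mul_sum, sum_gauss]
  unfold co
  rw [e1, norm_mul, norm_div, norm_one, Complex.norm_natCast]
  have h3 : ‖∑ χ : DirichletCharacter ℂ p, β χ * gaussSum χ (AddChar.mulShift ZMod.stdAddChar (-(a : ZMod p)))‖ ≤
      S * Real.sqrt p := by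
    refine (norm_sum_le _ _).trans ?_
    calc ∑ χ : DirichletCharacter ℂ p, ‖β χ * gaussSum χ (AddChar.mulShift ZMod.stdAddChar (-(a : ZMod p)))‖ ≤
          ∑ χ : DirichletCharacter ℂ p, ‖β χ‖ * Real.sqrt p := by
          refine sum_le_sum fun χ _ => ?_
          rw [norm_mul]
          exact mul_le_mul_of_nonneg_left (norm_gauss χ _ (shift_prim a ha)) (norm_nonneg _)
      _ = (∑ χ : DirichletCharacter ℂ p, ‖β χ‖) * Real.sqrt p := by rw [sum_mul]
      _ ≤ _ := mul_le_mul_of_nonneg_right h2 hs0.le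
  have h4 : ‖(f 0 : ℂ)‖ ≤ Real.sqrt p := by
    rw [Complex.norm_real, Real.norm_eq_abs, abs_of_nonneg (hf 0).1]
    exact (hf 0).2.trans hs1
  calc 1 / (p : ℝ) * ‖(f 0 : ℂ) + ∑ χ : DirichletCharacter ℂ p, β χ * gaussSum χ (AddChar.mulShift ZMod.stdAddChar (-(a : ZMod p)))‖ ≤
        1 / (p : ℝ) * (Real.sqrt p + S * Real.sqrt p) :=
        mul_le_mul_of_nonneg_left ((norm_add_le _ _).trans (add_le_add h4 h3)) (by positivity)
    _ = (S + 1) / Real.sqrt p := by
        rw [eq_div_iff hs0.ne']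
        calc 1 / (p : ℝ) * (Real.sqrt p + S * Real.sqrt p) * Real.sqrt p =
            1 / (p : ℝ) * ((S + 1) * (Real.sqrt p * Real.sqrt p)) := by ring
          _ = S + 1 := by
            rw [Real.mul_self_sqrt hp0.le]
            field_simp

/-- the indicator of the primitive roots `B n ^ r` as a sum of characters -/
lemma expandG (B : ℤ) (hB : ¬ (p : ℤ) ∣ B) (r : ℕ) (hr : 0 < r) :
    ∃ β : DirichletCharacter ℂ p → ℂ,
      (∀ n : ℤ, (if orderOf (((B * n ^ r : ℤ)) : ZMod p) = p - 1 then (1 : ℂ) else 0) =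
        ∑ χ, β χ * χ (n : ZMod p)) ∧
      (∑ χ, ‖β χ‖ ≤ ((p - 1).divisors.card : ℝ)) := by
  classical
  have hN := N_pos (p := p)
  have hu : IsUnit (B : ZMod p) := by
    rw [isUnit_iff_ne_zero, Ne, ZMod.intCast_zmod_eq_zero_iff_dvd]
    exact hB
  set β : DirichletCharacter ℂ p → ℂ := fun ψ =>
    ∑ χ ∈ univ.filter (fun χ : DirichletCharacter ℂ p => χ ^ r = ψ), fc gen χ * χ (B : ZMod p)
    with hβ
  have hterm : ∀ χ : DirichletCharacter ℂ p, ‖fc gen χ * χ (B : ZMod p)‖ ≤ ‖fc gen χ‖ := by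
    intro χ
    rw [norm_mul]
    have := DirichletCharacter.norm_le_one χ (B : ZMod p)
    calc _ ≤ ‖fc gen χ‖ * 1 := by gcongr
      _ = _ := mul_one _
  refine ⟨β, ?_, ?_⟩
  · intro n
    have h1 : ∑ ψ : DirichletCharacter ℂ p, β ψ * ψ (n : ZMod p) =
        ∑ χ : DirichletCharacter ℂ p, fc gen χ * χ (B : ZMod p) * χ (n : ZMod p) ^ r := by
      symm
      rw [← sum_fiberwise_of_maps_to (s := univ) (t := univ)
        (g := fun χ : DirichletCharacter ℂ p => χ ^ r) (fun _ _ => mem_univ _)]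
      refine sum_congr rfl fun ψ _ => ?_
      rw [hβ, sum_mul]
      refine sum_congr rfl fun χ hχ => ?_
      have hχ' : χ ^ r = ψ := (mem_filter.1 hχ).2
      rw [← hχ', MulChar.pow_apply' χ hr.ne']
    rw [h1]
    by_cases hn : (n : ZMod p) = 0
    · have h0 : ((B * n ^ r : ℤ) : ZMod p) = 0 := by
        push_cast
        rw [hn, zero_pow hr.ne', mul_zero]
      have h2 : orderOf (0 : ZMod p) = 0 := by
        rw [orderOf_eq_zero_iff']
        intro m hm
        rw [zero_pow hm.ne']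
        exact zero_ne_one
      rw [h0, h2, if_neg hN.ne]
      symm
      refine sum_eq_zero fun χ _ => ?_
      rw [hn, MulChar.map_zero, zero_pow hr.ne', mul_zero]
    · have hn0 : IsUnit (n : ZMod p) := isUnit_iff_ne_zero.2 hn
      obtain ⟨a, ha⟩ := hu.mul (hn0.pow r)
      have h0 : ((B * n ^ r : ℤ) : ZMod p) = (a : ZMod p) := by
        push_cast
        exact ha.symm
      have hinv := fc_inv (p := p) gen a
      have h2 : ∑ χ : DirichletCharacter ℂ p, fc gen χ * χ (a : ZMod p) =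
          ∑ χ : DirichletCharacter ℂ p, fc gen χ * χ (B : ZMod p) * χ (n : ZMod p) ^ r := by
        refine sum_congr rfl fun χ _ => ?_
        rw [ha, map_mul, map_pow]; ring
      rw [← h2, hinv, h0, orderOf_units]
      rfl
  · calc ∑ ψ, ‖β ψ‖ ≤ ∑ ψ : DirichletCharacter ℂ p,
          ∑ χ ∈ univ.filter (fun χ : DirichletCharacter ℂ p => χ ^ r = ψ), ‖fc gen χ‖ := by
          refine sum_le_sum fun ψ _ => ?_
          exact (norm_sum_le _ _).trans (sum_le_sum fun χ _ => hterm χ)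
      _ = ∑ χ : DirichletCharacter ℂ p, ‖fc gen χ‖ :=
          sum_fiberwise_of_maps_to (fun _ _ => mem_univ _) _
      _ ≤ _ := fc_gen_sum

/-- `1` if `B n ^ r` is a primitive root modulo `p`, and `0` otherwise -/
noncomputable def fB (B : ℤ) (r : ℕ) (p : ℕ) (n : ℤ) : ℝ := by
  classical
  exact if orderOf (((B * n ^ r : ℤ)) : ZMod p) = p - 1 then 1 else 0

lemma fB_mem (B : ℤ) (r p : ℕ) (n : ℤ) : 0 ≤ fB B r p n ∧ fB B r p n ≤ 1 := by
  unfold fB
  split_ifs <;> norm_num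

lemma fB_per (B : ℤ) (r p : ℕ) : Per p (fB B r p) := by
  intro m n h
  unfold fB
  have h1 : (n : ZMod p) = (m : ZMod p) := (ZMod.intCast_eq_intCast_iff_dvd_sub n m p).2 h
  have : ((B * m ^ r : ℤ) : ZMod p) = ((B * n ^ r : ℤ) : ZMod p) := by
    push_cast
    rw [h1]
  rw [this]

lemma rep_fB (B : ℤ) (hB : ¬ (p : ℤ) ∣ B) (r : ℕ) (hr : 0 < r) :
    Rep p (fB B r p) ((p - 1).divisors.card : ℝ) := by
  obtain ⟨β, h1, h2⟩ := expandG (p := p) B hB r hr
  refine ⟨β, fun n _ => ?_, h2⟩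
  rw [← h1 n]
  unfold fB
  split_ifs <;> simp

open Pool.Agent.H730R2.AA.Exp (qc qc_ne) in
open Pool.Agent.R318.PR (qu) in
lemma rep_qu (D : ℤ) (hD : ¬ (p : ℤ) ∣ D) : Rep p (qu D p) 1 := by
  classical
  refine ⟨fun χ => (if χ = 1 then 1 / 2 else 0) + (if χ = qc p then qc p ((D : ℤ) : ZMod p) / 2 else 0), ?_, ?_⟩
  · intro n hn
    have hnu : IsUnit ((n : ℤ) : ZMod p) := by
      rw [isUnit_iff_ne_zero, Ne, ZMod.intCast_zmod_eq_zero_iff_dvd]
      exact hn
    simp only [add_mul, sum_add_distrib, ite_mul, zero_mul, sum_ite_eq', mem_univ, if_true]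
    rw [MulChar.one_apply hnu, mul_one]
    have e1 : qc p ((D : ℤ) : ZMod p) / 2 * qc p ((n : ℤ) : ZMod p) =
        qc p (((D * n : ℤ)) : ZMod p) / 2 := by
      push_cast
      rw [map_mul]
      ring
    rw [e1]
    have hDn : (((D * n : ℤ)) : ZMod p) ≠ 0 := by
      rw [Ne, ZMod.intCast_zmod_eq_zero_iff_dvd]
      intro h
      rcases (Nat.prime_iff_prime_int.1 hp.out).dvd_or_dvd h with h | h
      · exact hD h
      · exact hn h
    have e2 : qc p (((D * n : ℤ)) : ZMod p) =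
        ((quadraticChar (ZMod p) (((D * n : ℤ)) : ZMod p) : ℤ) : ℂ) := by
      unfold qc
      rw [MulChar.ringHomComp_apply]
      rfl
    rw [e2]
    unfold qu
    split_ifs with hsq
    · rw [(quadraticChar_one_iff_isSquare hDn).2 hsq]
      push_cast
      norm_num
    · have : quadraticChar (ZMod p) (((D * n : ℤ)) : ZMod p) = -1 :=
        quadraticChar_neg_one_iff_not_isSquare.2 hsq
      rw [this]
      push_cast
      norm_num
  · have hle : ∀ χ : DirichletCharacter ℂ p,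
        ‖(if χ = 1 then (1 / 2 : ℂ) else 0) + (if χ = qc p then qc p ((D : ℤ) : ZMod p) / 2 else 0)‖ ≤
        (if χ = 1 then (1 / 2 : ℝ) else 0) + (if χ = qc p then (1 / 2 : ℝ) else 0) := by
      intro χ
      refine (norm_add_le _ _).trans (add_le_add ?_ ?_)
      · split_ifs <;> simp
      · split_ifs
        · rw [norm_div, Complex.norm_ofNat]
          have := DirichletCharacter.norm_le_one (qc p) ((D : ℤ) : ZMod p)
          linarith
        · simp
    refine (sum_le_sum fun χ _ => hle χ).trans ?_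
    rw [sum_add_distrib, sum_ite_eq', sum_ite_eq', if_pos (mem_univ _), if_pos (mem_univ _)]
    norm_num

end Pool.Agent.T6.H1.Sm
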