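import Pool.Agent.T6.H1.Sm.Sum
import Pool.Agent.R318.PR.FinB
import Pool.Agent.TH893.BR.PowB

/-! # The families of conditions -/

set_option autoImplicit false

namespace Pool.Agent.T6.H1.Sm

open Finset Filter Topology
open Pool.Agent.R459.Eq (co mean Per small_ev pi_lower')
open Pool.Agent.R318.PR (GP mem_GP GP_sum GP_card_le GP_card_ge mean_avg pi_eq qu qu_mem qu_per avg_half)
open Pool.Agent.H771R4.SE (Dat dLin)
open Pool.Agent.H386R2.Artin (PP artinC)
open Pool.Agent.TH893.BR (Bs datB datB_A)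

/-- the density of a datum -/
lemma avg_dat (d : Dat) (M : ℕ) (hM : M ≠ 0) : ∀ ε : ℝ, 0 < ε → ∃ X : ℕ, ∀ x : ℕ, X ≤ x →
    |∑ p ∈ GP M x, d.G p - d.A * Nat.primeCounting x| ≤ ε * Nat.primeCounting x := by
  intro ε hε
  have hml := d.lim
  rw [Metric.tendsto_atTop] at hml
  obtain ⟨X1, hX1⟩ := hml (ε / 2) (by positivity)
  obtain ⟨X2, hX24, hX2⟩ := small_ev (2 * (M.primeFactors.card : ℝ)) (ε / 2) (by positivity)
  refine ⟨max X1 X2, fun x hx => ?_⟩
  have hx1 := (le_max_left _ _).trans hx
  have hx2 := (le_max_right _ _).trans hx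
  have hx4 : 4 ≤ x := by omega
  have hpos := (pi_lower' x hx4).1
  have h2 := hX1 x hx1
  rw [Real.dist_eq] at h2
  have h3 : ∑ p ∈ PP x, d.G p - d.A * Nat.primeCounting x =
      ((∑ p ∈ PP x, d.G p) / Nat.primeCounting x - d.A) * Nat.primeCounting x := by
    field_simp
  have h4 : |∑ p ∈ PP x, d.G p - d.A * Nat.primeCounting x| ≤ ε / 2 * Nat.primeCounting x := by
    rw [h3, abs_mul, abs_of_pos hpos]
    gcongr
  have h6 := GP_sum M hM x (PP x) d.G d.G0 d.G1
    (by
      intro p hp
      rw [mem_GP] at hp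
      rw [PP, mem_filter, mem_range]
      exact ⟨by omega, hp.2.1⟩)
    (by
      intro p hp
      rw [PP, mem_filter, mem_range] at hp
      exact ⟨by omega, hp.2⟩)
  have h7 := hX2 x hx2
  have h8 : 0 ≤ Real.log x := Real.log_nonneg (by exact_mod_cast (by omega : 1 ≤ x))
  have h9 := abs_sub_le (∑ p ∈ GP M x, d.G p) (∑ p ∈ PP x, d.G p) (d.A * Nat.primeCounting x)
  linarith

lemma one_le_tau {p : ℕ} (hp : p.Prime) : (1 : ℝ) ≤ ((p - 1).divisors.card : ℝ) := by
  have h3 : 0 < (p - 1).divisors.card := by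
    rw [card_pos, Nat.nonempty_divisors]
    have := hp.two_le
    omega
  exact_mod_cast h3

open Classical in
/-- the mean over all residues is the local density -/
lemma mean_dat (d : Dat) (f : ℤ → ℝ) (hf : ∀ n, 0 ≤ f n ∧ f n ≤ 1) {p : ℕ} (hp : p.Prime) (hp0 : d.p0 ≤ p)
    (hfQ : ∀ a : ℕ, f a = if d.Q p (a : ZMod p) then 1 else 0) :
    |mean p f - d.G p| ≤ 3 * (2 : ℕ) * ((p - 1).divisors.card : ℝ) / Real.sqrt p := by
  have : Fact p.Prime := ⟨hp⟩
  have hpr : (0 : ℝ) < p := by exact_mod_cast hp.pos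
  have hp1 : (1 : ℝ) ≤ p := by exact_mod_cast hp.one_le
  have hgood : Pool.Agent.H386R2.Artin.Good (Ico 1 p) 0 p := by
    intro χ hχ
    have h1 := Pool.Agent.R459.Eq.sum_char p χ hχ
    rw [range_eq_Ico, sum_eq_sum_Ico_succ_bot hp.pos] at h1
    rw [Nat.cast_zero, MulChar.map_zero, zero_add, zero_add] at h1
    rw [h1, norm_zero]
  have hne : ∀ q ∈ Ico 1 p, (q : ZMod p) ≠ 0 := by
    intro q hq
    rw [mem_Ico] at hq
    rw [Ne, ZMod.natCast_eq_zero_iff]
    intro h
    have := Nat.le_of_dvd (by omega) h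
    omega
  have hloc := d.loc p hp hp0 (Ico 1 p) 0 p hp.two_le hne le_rfl hgood
  have hhL : Pool.Agent.H386R2.Artin.hL p (p - 1) = 0 := by
    unfold Pool.Agent.H386R2.Artin.hL
    apply sum_eq_zero
    intro l hl
    rw [mem_filter] at hl
    exfalso
    have h1 := Nat.le_of_mem_primeFactors hl.1
    omega
  rw [hhL, mul_zero, mul_zero, mul_zero, mul_zero, add_zero, add_zero, add_zero, Nat.card_Ico] at hloc
  obtain ⟨c, hc⟩ : ∃ c : ℝ, c = (#((Ico 1 p).filter (fun q : ℕ => d.Q p ((q : ℕ) : ZMod p))) : ℝ) := ⟨_, rfl⟩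
  have hloc' : |c - ((p - 1 : ℕ) : ℝ) * d.G p| ≤ 1 := by
    rw [hc]
    refine le_trans (le_of_eq ?_) hloc
    congr!
  have hsum : ∑ t ∈ range p, f t = f 0 + c := by
    rw [range_eq_Ico, sum_eq_sum_Ico_succ_bot hp.pos]
    rw [hc, card_filter]
    push_cast
    congr 1
    apply sum_congr rfl
    intro t _
    rw [hfQ t]
  have hcast : ((p - 1 : ℕ) : ℝ) = p - 1 := by
    rw [Nat.cast_sub hp.one_le, Nat.cast_one]
  rw [hcast] at hloc'
  have hG0 := d.G0 p
  have hG1 := d.G1 p
  have hf0 := hf 0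
  have h1 : |mean p f - d.G p| ≤ 4 / p := by
    have e : mean p f - d.G p = (f 0 + (c - (p - 1) * d.G p) - d.G p) / p := by
      unfold mean
      rw [hsum]
      field_simp
      ring
    rw [e, abs_div, abs_of_pos hpr]
    apply div_le_div_of_nonneg_right _ hpr.le
    rw [abs_le] at hloc' ⊢
    constructor <;> linarith [hloc'.1, hloc'.2, hf0.1, hf0.2]
  refine h1.trans ?_
  have hs0 : 0 < Real.sqrt p := Real.sqrt_pos.2 hpr
  have hs1 : 1 ≤ Real.sqrt p := by rw [Real.one_le_sqrt]; exact hp1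
  have hss : Real.sqrt p * Real.sqrt p = p := Real.mul_self_sqrt hpr.le
  rw [div_le_div_iff₀ hpr hs0]
  have h2 := one_le_tau hp
  push_cast
  have h3 : Real.sqrt p ≤ p := by nlinarith
  have h4 : (p : ℝ) ≤ ((p - 1).divisors.card : ℝ) * p := by nlinarith
  nlinarith

/-- the family of the primitive roots `B n ^ r` for the bases `B` of Q1 -/
theorem fam_B (s : Bs) (r : ℕ+) : Fam ((datB s r).p0 + s.B.natAbs).factorial (fun p n => fB s.B r p n) (datB s r).A := by
  classical
  have hge : ∀ p : ℕ, p.Prime → ¬ p ∣ ((datB s r).p0 + s.B.natAbs).factorial → (datB s r).p0 + s.B.natAbs < p := by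
    intro p hp h
    by_contra hcon
    push Not at hcon
    exact h ((Nat.Prime.dvd_factorial hp).2 hcon)
  refine ⟨Nat.factorial_ne_zero _, fun p n => fB_mem _ _ _ _, fun p _ _ => fB_per _ _ _, ?_, ?_⟩
  · intro p hp hpM
    have : Fact p.Prime := ⟨hp⟩
    have h1 := hge p hp hpM
    refine rep_fB s.B ?_ r r.pos
    intro h
    have h2 := Nat.le_of_dvd (Int.natAbs_pos.2 s.B0) (Int.natCast_dvd.1 h)
    omega
  · apply mean_avg _ 2 _ (datB s r).G (datB s r).A
    · intro p hp hpM
      have h1 := hge p hp hpM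
      refine mean_dat (datB s r) _ (fB_mem _ _ _) hp (by omega) ?_
      intro a
      unfold fB
      have h : (orderOf (((s.B * (a : ℤ) ^ (r : ℕ) : ℤ)) : ZMod p) = p - 1) ↔ (datB s r).Q p (a : ZMod p) := by
        rw [Pool.Agent.TH893.BR.datB_Q]
        push_cast
        rfl
      by_cases h1 : (datB s r).Q p (a : ZMod p)
      · rw [if_pos h1, if_pos (h.2 h1)]
      · rw [if_neg h1, if_neg (fun h2 => h1 (h.1 h2))]
    · exact avg_dat _ _ (Nat.factorial_ne_zero _)

/-- the family of the primitive roots `B n` -/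
theorem fam_lin (B : ℤ) (hB : B ≠ 0) : Fam (B.natAbs + 1).factorial (fun p n => fB B 1 p n) artinC := by
  classical
  have hge : ∀ p : ℕ, p.Prime → ¬ p ∣ (B.natAbs + 1).factorial → B.natAbs + 1 < p := by
    intro p hp h
    by_contra hcon
    push Not at hcon
    exact h ((Nat.Prime.dvd_factorial hp).2 hcon)
  refine ⟨Nat.factorial_ne_zero _, fun p n => fB_mem _ _ _ _, fun p _ _ => fB_per _ _ _, ?_, ?_⟩
  · intro p hp hpM
    have : Fact p.Prime := ⟨hp⟩
    have h1 := hge p hp hpM
    refine rep_fB B ?_ 1 one_pos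
    intro h
    have h2 := Nat.le_of_dvd (Int.natAbs_pos.2 hB) (Int.natCast_dvd.1 h)
    omega
  · apply mean_avg _ 2 _ (dLin B hB).G artinC
    · intro p hp hpM
      have h1 := hge p hp hpM
      refine mean_dat (dLin B hB) _ (fB_mem _ _ _) hp ?_ ?_
      · show B.natAbs + 1 ≤ p
        omega
      · intro a
        unfold fB
        have h : (orderOf (((B * (a : ℤ) ^ 1 : ℤ)) : ZMod p) = p - 1) ↔ (dLin B hB).Q p (a : ZMod p) := by
          show _ ↔ orderOf ((B : ZMod p) * (a : ZMod p)) = p - 1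
          push_cast
          rw [pow_one]
        by_cases h1 : (dLin B hB).Q p (a : ZMod p)
        · rw [if_pos h1, if_pos (h.2 h1)]
        · rw [if_neg h1, if_neg (fun h2 => h1 (h.1 h2))]
    · exact avg_dat (dLin B hB) _ (Nat.factorial_ne_zero _)

/-- the family of the squares `D n` -/
theorem fam_qu (D : ℤ) (hD : D ≠ 0) : Fam (D.natAbs + 1).factorial (fun p n => qu D p n) (1 / 2) := by
  classical
  have hge : ∀ p : ℕ, p.Prime → ¬ p ∣ (D.natAbs + 1).factorial → D.natAbs + 1 < p := by
    intro p hp h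
    by_contra hcon
    push Not at hcon
    exact h ((Nat.Prime.dvd_factorial hp).2 hcon)
  refine ⟨Nat.factorial_ne_zero _, fun p n => qu_mem _ _ _, fun p _ _ => qu_per _ _, ?_, ?_⟩
  · intro p hp hpM
    have : Fact p.Prime := ⟨hp⟩
    have h1 := hge p hp hpM
    refine (rep_qu D ?_).mono (one_le_tau hp)
    intro h
    have h2 := Nat.le_of_dvd (Int.natAbs_pos.2 hD) (Int.natCast_dvd.1 h)
    omega
  · apply mean_avg _ 2 _ (fun _ => 1 / 2) (1 / 2)
    · intro p hp hpM
      have : Fact p.Prime := ⟨hp⟩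
      have h1 := hge p hp hpM
      have hDp : ¬ (p : ℤ) ∣ D := by
        intro h
        have h2 := Nat.le_of_dvd (Int.natAbs_pos.2 hD) (Int.natCast_dvd.1 h)
        omega
      have hDa := Int.natAbs_pos.2 hD
      have hp2 : p ≠ 2 := by omega
      have hpr : (0 : ℝ) < p := by exact_mod_cast hp.pos
      have hp1 : (1 : ℝ) ≤ p := by exact_mod_cast hp.one_le
      -- the sum of the characters
      have hsum : ∑ t ∈ Ico 1 p, ((qu D p (t : ℤ) : ℝ) : ℂ) = (((p : ℝ) - 1) / 2 : ℝ) := by
        have e1 : ∀ t ∈ Ico 1 p, ((qu D p (t : ℤ) : ℝ) : ℂ) =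
            1 / 2 + Pool.Agent.H730R2.AA.Exp.qc p ((D : ℤ) : ZMod p) / 2 *
              Pool.Agent.H730R2.AA.Exp.qc p ((t : ℕ) : ZMod p) := by
          intro t ht
          rw [mem_Ico] at ht
          have htp : ¬ (p : ℤ) ∣ (t : ℤ) := by
            intro h
            have := Nat.le_of_dvd (by omega) (Int.natCast_dvd_natCast.1 h)
            omega
          have e2 : Pool.Agent.H730R2.AA.Exp.qc p ((D : ℤ) : ZMod p) / 2 *
              Pool.Agent.H730R2.AA.Exp.qc p ((t : ℕ) : ZMod p) =
              Pool.Agent.H730R2.AA.Exp.qc p (((D * t : ℤ)) : ZMod p) / 2 := by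
            push_cast
            rw [map_mul]
            ring
          rw [e2]
          have hDn : (((D * t : ℤ)) : ZMod p) ≠ 0 := by
            rw [Ne, ZMod.intCast_zmod_eq_zero_iff_dvd]
            intro h
            rcases (Nat.prime_iff_prime_int.1 hp).dvd_or_dvd h with h | h
            · exact hDp h
            · exact htp h
          have e3 : Pool.Agent.H730R2.AA.Exp.qc p (((D * t : ℤ)) : ZMod p) =
              ((quadraticChar (ZMod p) (((D * t : ℤ)) : ZMod p) : ℤ) : ℂ) := by
            unfold Pool.Agent.H730R2.AA.Exp.qc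
            rw [MulChar.ringHomComp_apply]
            rfl
          rw [e3]
          unfold qu
          split_ifs with hsq
          · rw [(quadraticChar_one_iff_isSquare hDn).2 hsq]
            push_cast
            norm_num
          · have : quadraticChar (ZMod p) (((D * t : ℤ)) : ZMod p) = -1 :=
              quadraticChar_neg_one_iff_not_isSquare.2 hsq
            rw [this]
            push_cast
            norm_num
        rw [sum_congr rfl e1, sum_add_distrib, ← mul_sum]
        have h3 := Pool.Agent.R459.Eq.sum_char p (Pool.Agent.H730R2.AA.Exp.qc p)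
          (Pool.Agent.H730R2.AA.Exp.qc_ne hp2)
        rw [range_eq_Ico, sum_eq_sum_Ico_succ_bot hp.pos] at h3
        rw [Nat.cast_zero, MulChar.map_zero, zero_add, zero_add] at h3
        rw [h3, mul_zero, add_zero, sum_const, Nat.card_Ico, nsmul_eq_mul, Nat.cast_sub hp.one_le]
        push_cast
        ring
      have hsum' : ∑ t ∈ Ico 1 p, qu D p (t : ℤ) = ((p : ℝ) - 1) / 2 := by exact_mod_cast hsum
      have h4 : |mean p (qu D p) - 1 / 2| ≤ 1 / p := by
        have e : mean p (qu D p) - 1 / 2 = (qu D p 0 - 1 / 2) / p := by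
          unfold mean
          rw [range_eq_Ico, sum_eq_sum_Ico_succ_bot hp.pos, zero_add, hsum']
          push_cast
          field_simp
          ring
        rw [e, abs_div, abs_of_pos hpr]
        apply div_le_div_of_nonneg_right _ hpr.le
        have := qu_mem D p 0
        rw [abs_le]
        constructor <;> linarith [this.1, this.2]
      refine h4.trans ?_
      have hs0 : 0 < Real.sqrt p := Real.sqrt_pos.2 hpr
      have hs1 : 1 ≤ Real.sqrt p := by rw [Real.one_le_sqrt]; exact hp1
      have hss : Real.sqrt p * Real.sqrt p = p := Real.mul_self_sqrt hpr.le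
      rw [div_le_div_iff₀ hpr hs0]
      have h2 := one_le_tau hp
      push_cast
      have h3 : Real.sqrt p ≤ p := by nlinarith
      have h4 : (p : ℝ) ≤ ((p - 1).divisors.card : ℝ) * p := by nlinarith
      nlinarith
    · exact avg_half _ (Nat.factorial_ne_zero _)

end Pool.Agent.T6.H1.Sm
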