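import Pool.Agent.T6.H1.Sm.Mom
import Pool.Agent.T6.H1.Sm.Four
import Pool.Agent.R318.PR.Gen
import Pool.Agent.H369R2.S6a

/-! # Sums of the elements of two arbitrary sets: one `x` -/

set_option autoImplicit false

namespace Pool.Agent.T6.H1.Sm

open Finset Filter
open Pool.Agent.R459.Eq (co mean Per pi_lower')
open Pool.Agent.R318.PR (GP mem_GP GP_card_le)

/-- a family of conditions modulo primes which are given by characters, with the average density `δ` -/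
structure Fam (M : ℕ) (f : ℕ → ℤ → ℝ) (δ : ℝ) : Prop where
  hM : M ≠ 0
  h01 : ∀ p n, 0 ≤ f p n ∧ f p n ≤ 1
  per : ∀ p, p.Prime → ¬ p ∣ M → Per p (f p)
  rep : ∀ (p : ℕ) (hp : p.Prime), ¬ p ∣ M → @Rep p ⟨hp⟩ (f p) ((p - 1).divisors.card : ℝ)
  avg : ∀ ε : ℝ, 0 < ε → ∃ X : ℕ, ∀ x : ℕ, X ≤ x →
    |∑ p ∈ GP M x, mean p (f p) - δ * Nat.primeCounting x| ≤ ε * Nat.primeCounting x

/-- the number of the primes that divide a nonzero integer -/
lemma count_div (S : Finset ℕ) (hS : ∀ p ∈ S, p.Prime) (m : ℤ) (hm : m ≠ 0) (A : ℝ) (hA : (m.natAbs : ℝ) ≤ A) :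
    ((S.filter (fun p : ℕ => (p : ℤ) ∣ m)).card : ℝ) ≤ 2 * Real.log A := by
  classical
  have hm0 : m.natAbs ≠ 0 := Int.natAbs_ne_zero.2 hm
  have h1 : S.filter (fun p : ℕ => (p : ℤ) ∣ m) ⊆ m.natAbs.primeFactors := by
    intro p hp
    rw [mem_filter] at hp
    rw [Nat.mem_primeFactors]
    exact ⟨hS p hp.1, Int.natCast_dvd.1 hp.2, hm0⟩
  have h2 := card_le_card h1
  have h3 : 2 ^ m.natAbs.primeFactors.card ≤ m.natAbs := by
    calc 2 ^ m.natAbs.primeFactors.card = ∏ _p ∈ m.natAbs.primeFactors, 2 := by rw [prod_const]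
      _ ≤ ∏ p ∈ m.natAbs.primeFactors, p :=
          Finset.prod_le_prod' fun p hp => (Nat.prime_of_mem_primeFactors hp).two_le
      _ ≤ m.natAbs := Nat.le_of_dvd (Nat.pos_of_ne_zero hm0) (Nat.prod_primeFactors_dvd _)
  have h4 : (2 : ℝ) ^ m.natAbs.primeFactors.card ≤ A := by
    refine le_trans ?_ hA
    exact_mod_cast h3
  have h5 := Real.log_le_log (by positivity) h4
  rw [Real.log_pow] at h5
  have h6 : (1 : ℝ) / 2 ≤ Real.log 2 := by have := Real.log_two_gt_d9; linarith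
  have h7 : (m.natAbs.primeFactors.card : ℝ) * (1 / 2) ≤ (m.natAbs.primeFactors.card : ℝ) * Real.log 2 :=
    mul_le_mul_of_nonneg_left h6 (Nat.cast_nonneg _)
  have h8 : ((S.filter (fun p : ℕ => (p : ℤ) ∣ m)).card : ℝ) ≤ m.natAbs.primeFactors.card := by exact_mod_cast h2
  linarith

/-- the elementary inequality behind the main estimate -/
lemma elem (η x L a b π : ℝ) (hη : 0 < η) (hη1 : η ≤ 1) (hx : 1 ≤ x) (hL : 0 < L) (ha : 0 < a) (hb : 0 < b) (hπ : 0 < π)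
    (hπx : 1 / π ≤ 4 * Real.log x / x) (hlog : Real.log x ≤ x ^ (η / 24))
    (hab : x ^ (2 + η) ≤ a * b) (hLa : x ^ η * L ^ 2 ≤ a) (hLb : x ^ η * L ^ 2 ≤ b) (hLx : L ^ (2 + η) ≤ x) :
    Real.sqrt ((a * π ^ 2 + a ^ 2 * (2 * L) ^ 2) * (b * π ^ 2 + b ^ 2 * (2 * L) ^ 2)) ≤
      65 * (x ^ (-1 - η / 4)) * (a * b * π ^ 2) := by
  have hx0 : 0 < x := by linarith
  have hlog0 : 0 ≤ Real.log x := Real.log_nonneg hx
  obtain ⟨lam, hlam⟩ : ∃ lam, lam = (2 * L) ^ 2 / π ^ 2 := ⟨_, rfl⟩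
  have hlam0 : 0 < lam := by rw [hlam]; positivity
  have e1 : (a * π ^ 2 + a ^ 2 * (2 * L) ^ 2) * (b * π ^ 2 + b ^ 2 * (2 * L) ^ 2) =
      (a * b * π ^ 2) ^ 2 * ((1 / a + lam) * (1 / b + lam)) := by
    rw [hlam]
    field_simp
  rw [e1, Real.sqrt_mul (by positivity), Real.sqrt_sq (by positivity), mul_comm]
  apply mul_le_mul_of_nonneg_right _ (by positivity)
  rw [Real.sqrt_le_left (by positivity)]
  -- the powers of the logarithm
  have hl2 : Real.log x ^ 2 ≤ x ^ (η / 12) := by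
    calc Real.log x ^ 2 ≤ (x ^ (η / 24)) ^ 2 := pow_le_pow_left₀ hlog0 hlog 2
      _ = x ^ (η / 12) := by rw [← Real.rpow_natCast, ← Real.rpow_mul hx0.le]; congr 1; push_cast; ring
  have hl4 : Real.log x ^ 4 ≤ x ^ (η / 6) := by
    calc Real.log x ^ 4 ≤ (x ^ (η / 24)) ^ 4 := pow_le_pow_left₀ hlog0 hlog 4
      _ = x ^ (η / 6) := by rw [← Real.rpow_natCast, ← Real.rpow_mul hx0.le]; congr 1; push_cast; ring
  have hlam1 : lam ≤ 64 * (L ^ 2 * Real.log x ^ 2 / x ^ 2) := by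
    have h1 : lam = 4 * L ^ 2 * (1 / π) ^ 2 := by rw [hlam]; field_simp; ring
    have h2 : (1 / π) ^ 2 ≤ (4 * Real.log x / x) ^ 2 := pow_le_pow_left₀ (by positivity) hπx 2
    rw [h1]
    calc 4 * L ^ 2 * (1 / π) ^ 2 ≤ 4 * L ^ 2 * (4 * Real.log x / x) ^ 2 :=
          mul_le_mul_of_nonneg_left h2 (by positivity)
      _ = _ := by ring
  have hxx : x ^ (-2 : ℝ) = 1 / x ^ 2 := by
    rw [Real.rpow_neg hx0.le, one_div]
    norm_num
  have hLa' : L ^ 2 / a ≤ x ^ (-η) := by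
    rw [div_le_iff₀ ha, Real.rpow_neg hx0.le]
    have : 0 < x ^ η := by positivity
    rw [inv_mul_eq_div, le_div_iff₀ this]
    linarith
  have hLb' : L ^ 2 / b ≤ x ^ (-η) := by
    rw [div_le_iff₀ hb, Real.rpow_neg hx0.le]
    have : 0 < x ^ η := by positivity
    rw [inv_mul_eq_div, le_div_iff₀ this]
    linarith
  have t1 : 1 / a * (1 / b) ≤ x ^ (-2 - η / 2) := by
    have h1 : 1 / a * (1 / b) = 1 / (a * b) := by field_simp
    rw [h1]
    calc 1 / (a * b) ≤ 1 / x ^ (2 + η) := one_div_le_one_div_of_le (by positivity) hab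
      _ = x ^ (-(2 + η)) := by rw [Real.rpow_neg hx0.le, one_div]
      _ ≤ x ^ (-2 - η / 2) := Real.rpow_le_rpow_of_exponent_le hx (by linarith)
  have key : ∀ c : ℝ, 0 < c → L ^ 2 / c ≤ x ^ (-η) → lam * (1 / c) ≤ 64 * x ^ (-2 - η / 2) := by
    intro c hc h
    calc lam * (1 / c) ≤ 64 * (L ^ 2 * Real.log x ^ 2 / x ^ 2) * (1 / c) :=
          mul_le_mul_of_nonneg_right hlam1 (by positivity)
      _ = 64 * (Real.log x ^ 2 * (L ^ 2 / c) * (1 / x ^ 2)) := by field_simp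
      _ ≤ 64 * (x ^ (η / 12) * x ^ (-η) * x ^ (-2 : ℝ)) := by
          rw [hxx]
          have h0 : 0 ≤ L ^ 2 / c := by positivity
          gcongr
      _ = 64 * x ^ (η / 12 + -η + -2) := by rw [← Real.rpow_add hx0, ← Real.rpow_add hx0]
      _ ≤ 64 * x ^ (-2 - η / 2) := by
          apply mul_le_mul_of_nonneg_left _ (by norm_num)
          exact Real.rpow_le_rpow_of_exponent_le hx (by linarith)
  have t2 := key a ha hLa'
  have t3 := key b hb hLb'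
  have t4 : lam * lam ≤ 4096 * x ^ (-2 - η / 2) := by
    have hL1 : L ≤ x ^ (1 / (2 + η)) := by
      have h1 : (L ^ (2 + η)) ^ (1 / (2 + η)) = L := by
        rw [← Real.rpow_mul hL.le, mul_one_div, div_self (by linarith : (2 + η) ≠ 0), Real.rpow_one]
      rw [← h1]
      exact Real.rpow_le_rpow (by positivity) hLx (by positivity)
    have hL4 : L ^ 4 ≤ x ^ (2 - 2 * η / 3) := by
      calc L ^ 4 ≤ (x ^ (1 / (2 + η))) ^ 4 := pow_le_pow_left₀ hL.le hL1 4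
        _ = x ^ (4 / (2 + η)) := by
            rw [← Real.rpow_natCast, ← Real.rpow_mul hx0.le]; congr 1; push_cast; ring
        _ ≤ x ^ (2 - 2 * η / 3) := by
            apply Real.rpow_le_rpow_of_exponent_le hx
            rw [div_le_iff₀ (by linarith)]
            nlinarith
    have hx4 : x ^ (-4 : ℝ) = 1 / x ^ 4 := by
      rw [Real.rpow_neg hx0.le, one_div]
      norm_num
    calc lam * lam ≤ (64 * (L ^ 2 * Real.log x ^ 2 / x ^ 2)) * (64 * (L ^ 2 * Real.log x ^ 2 / x ^ 2)) :=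
          mul_le_mul hlam1 hlam1 hlam0.le (by positivity)
      _ = 4096 * (L ^ 4 * Real.log x ^ 4 * (1 / x ^ 4)) := by
          field_simp
          ring
      _ ≤ 4096 * (x ^ (2 - 2 * η / 3) * x ^ (η / 6) * x ^ (-4 : ℝ)) := by
          rw [hx4]
          gcongr
      _ = 4096 * x ^ (2 - 2 * η / 3 + η / 6 + -4) := by rw [← Real.rpow_add hx0, ← Real.rpow_add hx0]
      _ ≤ 4096 * x ^ (-2 - η / 2) := by
          apply mul_le_mul_of_nonneg_left _ (by norm_num)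
          exact Real.rpow_le_rpow_of_exponent_le hx (by linarith)
  have e2 : (65 * x ^ (-1 - η / 4)) ^ 2 = 4225 * x ^ (-2 - η / 2) := by
    rw [mul_pow, ← Real.rpow_natCast (x ^ (-1 - η / 4)), ← Real.rpow_mul hx0.le]
    norm_num
    congr 1
    ring
  rw [e2]
  have e3 : (1 / a + lam) * (1 / b + lam) = 1 / a * (1 / b) + lam * (1 / a) + lam * (1 / b) + lam * lam := by ring
  rw [e3]
  linarith

open Classical in
/-- **one `x`** -/
theorem one_sum (M : ℕ) (f : ℕ → ℤ → ℝ) (δ : ℝ) (hF : Fam M f δ) (η : ℝ) (hη : 0 < η) (hη1 : η ≤ 1)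
    (ε : ℝ) (hε : 0 < ε) : ∃ (C : ℝ) (X : ℕ), 0 < C ∧ 4 ≤ X ∧ ∀ (x N : ℕ) (U V : Finset ℤ), X ≤ x → 1 ≤ N →
      (∀ u ∈ U, |u| ≤ N) → (∀ v ∈ V, |v| ≤ N) →
      (x : ℝ) ^ (2 + η) ≤ U.card * V.card → (x : ℝ) ^ η * Real.log (2 * N) ^ 2 ≤ U.card →
      (x : ℝ) ^ η * Real.log (2 * N) ^ 2 ≤ V.card → Real.log (2 * N) ^ (2 + η) ≤ x →
      (((U ×ˢ V).filter (fun z => ε * (Nat.primeCounting x : ℝ) <
        |∑ p ∈ GP M x, f p (z.1 + z.2) - δ * Nat.primeCounting x|)).card : ℝ) ≤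
        C * (x : ℝ) ^ (-(η / 8)) * (U.card * V.card) := by
  obtain ⟨C0, hC0, hdiv⟩ := Pool.Agent.H369R2.divisor_bound (η / 32) (by positivity)
  obtain ⟨X1, hX1⟩ := hF.avg (ε / 2) (by positivity)
  have hev : ∀ᶠ x : ℝ in atTop, Real.log x ≤ x ^ (η / 24) := by
    have h1 := (isLittleO_log_rpow_atTop (show 0 < η / 24 by positivity)).bound (show (0 : ℝ) < 1 by norm_num)
    filter_upwards [h1, eventually_ge_atTop (1 : ℝ)] with x hx hx1
    rw [Real.norm_of_nonneg (Real.log_nonneg hx1), Real.norm_of_nonneg (by positivity), one_mul] at hx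
    exact hx
  obtain ⟨X2, hX2⟩ := eventually_atTop.1 ((tendsto_natCast_atTop_atTop (R := ℝ)).eventually hev)
  refine ⟨4 / ε ^ 2 * (4 + 65 * (C0 + 1) ^ 2), max (max X1 X2) 4, by positivity, le_max_right _ _, ?_⟩
  intro x N U V hx hN hU hV hab hLa hLb hLx
  have hx1 : X1 ≤ x := (le_max_left _ _).trans ((le_max_left _ _).trans hx)
  have hx2 : X2 ≤ x := (le_max_right _ _).trans ((le_max_left _ _).trans hx)
  have hx4 : 4 ≤ x := (le_max_right _ _).trans hx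
  have hlog := hX2 x hx2
  have hx4' : (4 : ℝ) ≤ x := by exact_mod_cast hx4
  have hx0 : (0 : ℝ) < x := by linarith
  have hx1' : (1 : ℝ) ≤ x := by linarith
  obtain ⟨hpi, hsq, hinv⟩ := pi_lower' x hx4
  obtain ⟨L, hL⟩ : ∃ L : ℝ, L = Real.log (2 * N) := ⟨_, rfl⟩
  rw [← hL] at hLa hLb hLx
  have hN1 : (1 : ℝ) ≤ N := by exact_mod_cast hN
  have hL0 : 0 < L := by rw [hL]; exact Real.log_pos (by linarith)
  obtain ⟨π, hπ⟩ : ∃ π : ℝ, π = (Nat.primeCounting x : ℝ) := ⟨_, rfl⟩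
  have ha0 : (0 : ℝ) < U.card := lt_of_lt_of_le (by positivity) hLa
  have hb0 : (0 : ℝ) < V.card := lt_of_lt_of_le (by positivity) hLb
  have hcardle := GP_card_le M x
  have hP : ∀ p ∈ GP M x, 1 ≤ p ∧ p ≤ x := fun p hp => by
    rw [mem_GP] at hp
    exact ⟨hp.2.1.one_le, hp.1⟩
  obtain ⟨T, hT⟩ : ∃ T : ℝ, T = (C0 + 1) * (x : ℝ) ^ (η / 32) := ⟨_, rfl⟩
  have hT0 : 0 ≤ T := by rw [hT]; positivity
  have hxe1 : (1 : ℝ) ≤ (x : ℝ) ^ (η / 32) := Real.one_le_rpow hx1' (by positivity)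
  have hcoT : ∀ p ∈ GP M x, ∀ a ∈ Ico 1 p, ‖co p (f p) a‖ ≤ T / Real.sqrt p := by
    intro p hp a ha
    rw [mem_GP] at hp
    have : Fact p.Prime := ⟨hp.2.1⟩
    refine (co_rep (f p) (hF.h01 p) _ (hF.rep p hp.2.1 hp.2.2) a ha).trans ?_
    apply div_le_div_of_nonneg_right _ (Real.sqrt_nonneg _)
    have hp1 : 1 ≤ p - 1 := by have := hp.2.1.two_le; omega
    have h1 := hdiv (p - 1) hp1
    have h2 : ((p - 1 : ℕ) : ℝ) ^ (η / 32) ≤ (x : ℝ) ^ (η / 32) := by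
      apply Real.rpow_le_rpow (Nat.cast_nonneg _) _ (by positivity)
      exact_mod_cast (by omega : p - 1 ≤ x)
    have h3 := mul_le_mul_of_nonneg_left h2 hC0.le
    rw [hT, add_mul, one_mul]
    linarith
  have hΛ : ∀ W : Finset ℤ, (∀ w ∈ W, |w| ≤ (N : ℤ)) → ∀ u ∈ W, ∀ u' ∈ W, u ≠ u' →
      (((GP M x).filter (fun p : ℕ => (p : ℤ) ∣ u - u')).card : ℝ) ≤ 2 * L := by
    intro W hW u hu u' hu' hne
    rw [hL]
    apply count_div _ (fun p hp => (mem_GP M x p |>.1 hp).2.1) _ (sub_ne_zero.2 hne)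
    have h1 := hW u hu
    have h2 := hW u' hu'
    have h3 : (u - u').natAbs ≤ 2 * N := by
      rw [abs_le] at h1 h2
      omega
    exact_mod_cast h3
  have hms := second U V x (GP M x) hP f hF.h01 (fun p hp => by
    rw [mem_GP] at hp
    exact hF.per p hp.2.1 hp.2.2) T hT0 hcoT (2 * L) (by positivity) (hΛ U hU) (hΛ V hV)
  obtain ⟨E, hE⟩ : ∃ E, E = (U ×ˢ V).filter (fun z => ε * (Nat.primeCounting x : ℝ) <
        |∑ p ∈ GP M x, f p (z.1 + z.2) - δ * Nat.primeCounting x|) := ⟨_, rfl⟩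
  rw [← hE]
  have hS : ∀ z ∈ E, (ε / 2 * π) ^ 2 ≤ (∑ p ∈ GP M x, (f p (z.1 + z.2) - mean p (f p))) ^ 2 := by
    intro z hz
    rw [← sq_abs (∑ p ∈ GP M x, (f p (z.1 + z.2) - mean p (f p)))]
    apply pow_le_pow_left₀ (by rw [hπ]; positivity)
    rw [hE, mem_filter] at hz
    have h3 := hz.2
    have h5 := hX1 x hx1
    rw [sum_sub_distrib]
    have h7 := abs_sub_le (∑ p ∈ GP M x, f p (z.1 + z.2)) (∑ p ∈ GP M x, mean p (f p))
      (δ * Nat.primeCounting x)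
    rw [hπ]
    linarith
  have hcheb : (E.card : ℝ) * (ε / 2 * π) ^ 2 ≤ ((GP M x).card : ℝ) * (U.card * V.card) + T ^ 2 * x *
        Real.sqrt (((U.card : ℝ) * ((GP M x).card : ℝ) ^ 2 + (U.card : ℝ) ^ 2 * (2 * L) ^ 2) *
          ((V.card : ℝ) * ((GP M x).card : ℝ) ^ 2 + (V.card : ℝ) ^ 2 * (2 * L) ^ 2)) := by
    refine le_trans ?_ hms
    rw [← nsmul_eq_mul]
    refine (card_nsmul_le_sum E _ _ hS).trans ?_
    rw [← sum_product' U V (fun u v => (∑ p ∈ GP M x, (f p (u + v) - mean p (f p))) ^ 2)]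
    apply sum_le_sum_of_subset_of_nonneg
    · rw [hE]; exact filter_subset _ _
    · intro z _ _
      exact sq_nonneg _
  have hsqrt : Real.sqrt (((U.card : ℝ) * ((GP M x).card : ℝ) ^ 2 + (U.card : ℝ) ^ 2 * (2 * L) ^ 2) *
          ((V.card : ℝ) * ((GP M x).card : ℝ) ^ 2 + (V.card : ℝ) ^ 2 * (2 * L) ^ 2)) ≤
      65 * ((x : ℝ) ^ (-1 - η / 4)) * (U.card * V.card * π ^ 2) := by
    refine le_trans (Real.sqrt_le_sqrt ?_) (elem η x L U.card V.card π hη hη1 hx1' hL0 ha0 hb0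
      (by rw [hπ]; exact hpi) (by rw [hπ]; exact hinv) hlog hab hLa hLb hLx)
    have hc2 : ((GP M x).card : ℝ) ^ 2 ≤ π ^ 2 := by
      rw [hπ]
      exact pow_le_pow_left₀ (Nat.cast_nonneg _) hcardle 2
    gcongr
  have hπ0 : 0 < π := by rw [hπ]; exact hpi
  have hT2 : T ^ 2 * x * (65 * ((x : ℝ) ^ (-1 - η / 4)) * (U.card * V.card * π ^ 2)) ≤
      65 * (C0 + 1) ^ 2 * (x : ℝ) ^ (-(η / 8)) * (U.card * V.card * π ^ 2) := by
    have e1 : T ^ 2 = (C0 + 1) ^ 2 * (x : ℝ) ^ (η / 16) := by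
      rw [hT, mul_pow, ← Real.rpow_natCast ((x : ℝ) ^ (η / 32)), ← Real.rpow_mul hx0.le]
      congr 2
      push_cast
      ring
    have e2 : (x : ℝ) ^ (η / 16) * x * (x : ℝ) ^ (-1 - η / 4) ≤ (x : ℝ) ^ (-(η / 8)) := by
      have h1 : (x : ℝ) ^ (η / 16) * x * (x : ℝ) ^ (-1 - η / 4) = (x : ℝ) ^ (η / 16 + 1 + (-1 - η / 4)) := by
        rw [Real.rpow_add hx0, Real.rpow_add hx0, Real.rpow_one]
      rw [h1]
      exact Real.rpow_le_rpow_of_exponent_le hx1' (by linarith)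
    calc T ^ 2 * x * (65 * ((x : ℝ) ^ (-1 - η / 4)) * (U.card * V.card * π ^ 2)) =
          65 * (C0 + 1) ^ 2 * ((x : ℝ) ^ (η / 16) * x * (x : ℝ) ^ (-1 - η / 4)) * (U.card * V.card * π ^ 2) := by
          rw [e1]; ring
      _ ≤ _ := by gcongr
  have hfirst : ((GP M x).card : ℝ) * (U.card * V.card) ≤ 4 * (x : ℝ) ^ (-(η / 8)) * (U.card * V.card * π ^ 2) := by
    have h1 : ((GP M x).card : ℝ) ≤ π := by rw [hπ]; exact hcardle
    have h2 : π ≤ 4 * (x : ℝ) ^ (-(η / 8)) * π ^ 2 := by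
      have h3 : 1 / π ≤ 4 * (x : ℝ) ^ (-(η / 8)) := by
        rw [hπ]
        refine hinv.trans ?_
        rw [mul_div_assoc]
        apply mul_le_mul_of_nonneg_left _ (by norm_num)
        rw [div_le_iff₀ hx0]
        refine hlog.trans ?_
        have h4 : (x : ℝ) ^ (-(η / 8)) * x = (x : ℝ) ^ (-(η / 8) + 1) := by
          rw [Real.rpow_add hx0, Real.rpow_one]
        rw [h4]
        exact Real.rpow_le_rpow_of_exponent_le hx1' (by linarith)
      have h5 := mul_le_mul_of_nonneg_right h3 (sq_nonneg π)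
      have h6 : 1 / π * π ^ 2 = π := by field_simp
      linarith
    calc ((GP M x).card : ℝ) * (U.card * V.card) ≤ (4 * (x : ℝ) ^ (-(η / 8)) * π ^ 2) * (U.card * V.card) :=
          mul_le_mul_of_nonneg_right (h1.trans h2) (by positivity)
      _ = _ := by ring
  have hfin : (E.card : ℝ) * (ε / 2 * π) ^ 2 ≤
      (4 + 65 * (C0 + 1) ^ 2) * (x : ℝ) ^ (-(η / 8)) * (U.card * V.card) * π ^ 2 := by
    have h1 := mul_le_mul_of_nonneg_left hsqrt (show 0 ≤ T ^ 2 * (x : ℝ) by positivity)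
    have e : (4 + 65 * (C0 + 1) ^ 2) * (x : ℝ) ^ (-(η / 8)) * (U.card * V.card) * π ^ 2 =
      4 * (x : ℝ) ^ (-(η / 8)) * (U.card * V.card * π ^ 2) +
      65 * (C0 + 1) ^ 2 * (x : ℝ) ^ (-(η / 8)) * (U.card * V.card * π ^ 2) := by ring
    rw [e]
    linarith
  have hπ2 : 0 < (ε / 2 * π) ^ 2 := by positivity
  rw [← le_div_iff₀ hπ2] at hfin
  refine hfin.trans (le_of_eq ?_)
  field_simp
  norm_num

end Pool.Agent.T6.H1.Sm
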